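import Mathlib
import Pool.Agent.Y248.FD.Stm
import Pool.Agent.Y248.FC.Fin
set_option autoImplicit false

/-! # Project FE: Bochner-Riesz means between two measures on cylinders: definitions, statements -/

namespace Pool.Agent.Y248.FE

open MeasureTheory Set Metric Complex Filter
open scoped ENNReal RealInnerProductSpace Topology FourierTransform
open Pool.Agent.H789R2.FR (E sg T)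
open Pool.Agent.H438R2.RZ (Bump)
open Pool.Agent.Y248.BA (mu Kr Tp)
open Pool.Agent.Y248.FB Pool.Agent.Y248.FC Pool.Agent.Y248.FD

/-- finite on balls -/
def Fb {n : ℕ} (μ : Measure (E n)) : Prop := ∀ (x : E n) (r : ℝ), μ (closedBall x r) < ∞

/-- the operator with multiplier `q` applied to the measure `f μ` -/
noncomputable def Tm {n : ℕ} (q f : E n → ℂ) (μ : Measure (E n)) (x : E n) : ℂ :=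
  ∫ y : E n, 𝓕 q (x - y) * f y ∂μ

/-- the mean of order `δ` of the measure `f μ` -/
noncomputable def Sn {n : ℕ} (δ : ℝ) (f : E n → ℂ) (μ : Measure (E n)) (x : E n) : ℂ :=
  ∫ ξ : E n, ml δ 1 ξ * Fm f μ (-ξ) * cexp (((2 * Real.pi * ⟪x, ξ⟫ : ℝ) : ℂ) * I)

/-- `MM`: duality for general multipliers, from the measure `μ₁` to the measure `μ₂` -/
def S_MM (n : ℕ) : Prop := ∀ q : E n → ℂ, Continuous q → (∀ ξ, q (-ξ) = q ξ) →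
  (∀ ξ, 2 < ‖ξ‖ → q ξ = 0) → ∀ μ₁ μ₂ : Measure (E n), Fb μ₁ → Fb μ₂ → ∀ p c : ℝ, 2 ≤ p → 0 ≤ c →
  (∀ g : E n → ℂ, BB g → En q g μ₂ ≤ ENNReal.ofReal c *
    (∫⁻ x, ‖g x‖ₑ ^ (p / (p - 1)) ∂μ₂) ^ (2 * (p - 1) / p)) →
  ∀ f : E n → ℂ, BB f → ∫⁻ x, ‖Tm q f μ₁ x‖ₑ ^ p ∂μ₂ ≤
    ENNReal.ofReal (c ^ (p / 2)) * (∫⁻ ξ in {ξ | q ξ ≠ 0}, ‖Fm f μ₁ ξ‖ₑ ^ (2 : ℝ)) ^ (p / 2)

/-- `G0`: the trivial gain -/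
def S_G0 (n : ℕ) : Prop := ∀ D : ℝ, 0 < D → ∃ K : ℝ, 0 < K ∧ ∀ μ : Measure (E n),
  DimC n D μ → Gain 0 K μ

/-- `GM`: globalisation, from the measure `μ₁` to the measure `μ₂`, for a norm `w` -/
def S_GM (n : ℕ) : Prop := ∀ p ε M D : ℝ, 1 ≤ p → 0 < ε → 0 < D → ∃ N : ℕ, ∀ C₀ : ℝ, 0 < C₀ →
  ∃ C : ℝ, 0 < C ∧ ∀ μ₁ μ₂ : Measure (E n), DimC n D μ₁ → DimC n D μ₂ → ∀ A : ℝ, 1 ≤ A →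
  ∀ w : Seminorm ℝ (E n), Continuous w → (∀ x, ‖x‖ ≤ 2 * w x) →
  ∀ q : E n → ℂ, Integrable q → (∀ x, (w x) ^ N * ‖𝓕 q x‖ ≤ C₀ * A ^ N) →
  ∀ D₁ : ℝ, 0 ≤ D₁ →
  (∀ (u : E n) (g : E n → ℂ), BB g → (∀ x, 2 * A ^ (1 + ε) < w (x - u) → g x = 0) →
    ∫⁻ x in {x | w (x - u) ≤ A ^ (1 + ε)}, ‖Tm q g μ₁ x‖ₑ ^ p ∂μ₂ ≤
      ENNReal.ofReal D₁ * ∫⁻ x, ‖g x‖ₑ ^ p ∂μ₁) →
  ∀ f : E n → ℂ, BB f →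
    ∫⁻ x, ‖Tm q f μ₁ x‖ₑ ^ p ∂μ₂ ≤
      ENNReal.ofReal (2 ^ (p - 1) * (2 ^ n * D₁ + C * A ^ (-M))) * ∫⁻ x, ‖f x‖ₑ ^ p ∂μ₁

/-- `CM`: crude bound for `A ≤ 64` -/
def S_CM (n : ℕ) : Prop := ∀ ψ : ℝ → ℝ, Bump ψ → ∀ p D : ℝ, 1 ≤ p → 0 < D → ∃ C : ℝ, 0 < C ∧
  ∀ μ₁ μ₂ : Measure (E n), DimC n D μ₁ → DimC n D μ₂ → ∀ A : ℝ, 1 ≤ A → A ≤ 64 →
  ∀ f : E n → ℂ, BB f →
    ∫⁻ x, ‖Tm (mu ψ A 1) f μ₁ x‖ₑ ^ p ∂μ₂ ≤ ENNReal.ofReal C * ∫⁻ x, ‖f x‖ₑ ^ p ∂μ₁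

/-- `SX`: the mean as a sum of pieces -/
def S_SX (n : ℕ) : Prop := ∀ δ : ℝ, 0 ≤ δ → ∃ ψ : ℝ → ℝ, Bump ψ ∧
  ∀ μ : Measure (E n), Fb μ → ∀ f : E n → ℂ, BB f → ∀ x : E n,
    HasSum (fun j : ℕ => (((2 : ℝ) ^ (-(δ * j)) : ℝ) : ℂ) * Tm (mu ψ (2 ^ j) 1) f μ x)
      (Sn δ f μ x)

/-- `DD`: duality -/
def S_DD (n : ℕ) : Prop := ∀ δ p q C : ℝ, 0 ≤ δ → 1 < p → 1 / p + 1 / q = 1 → 0 < C →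
  ∀ μ₁ μ₂ : Measure (E n), Fb μ₁ → Fb μ₂ →
  (∀ g : E n → ℂ, BB g → ∫⁻ x, ‖Sn δ g μ₂ x‖ₑ ^ q ∂μ₁ ≤
    ENNReal.ofReal C * ∫⁻ x, ‖g x‖ₑ ^ q ∂μ₂) →
  ∀ f : E n → ℂ, BB f → ∫⁻ x, ‖Sn δ f μ₁ x‖ₑ ^ p ∂μ₂ ≤
    ENNReal.ofReal (C ^ (p / q)) * ∫⁻ x, ‖f x‖ₑ ^ p ∂μ₁

/-- the constant in the restricted estimates -/
noncomputable def aa (m : ℕ) (β s A l : ℝ) : ℝ :=
  max ((A * l) ^ (-(1 - β)) * (A ^ ((m : ℝ) / 2 + β) * l ^ (-(1 - β))) ^ (-(2 * s)))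
    (A⁻¹ * l ^ (-1 - β + 2 * s * ((m : ℝ) + 1 + β)))

/-- `RX`: restricted estimates with exponent `1 + 2s`, `0 ≤ s ≤ 1/(2(m+1))` -/
def S_RX (m : ℕ) : Prop := ∀ ψ θ : ℝ → ℝ, Bump ψ → Cut θ → ∀ β K₀ s : ℝ, 0 ≤ β → β ≤ 1 →
  0 ≤ K₀ → 0 ≤ s → 2 * ((m : ℝ) + 1) * s ≤ 1 → ∃ C : ℝ, 0 < C ∧ ∀ ν : Measure (E 1), LD β K₀ ν →
  ∀ g : E (m + 1) → ℂ, BB g → ∀ S : Set (E (m + 1)), MeasurableSet S → cyl m ν S ≠ ∞ →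
  (∀ x, ‖g x‖ ≤ 1) → (∀ x, x ∉ S → g x = 0) →
    (∀ A l : ℝ, Adm θ A l → En (pm m ψ θ A l) g (cyl m ν) ≤
      ENNReal.ofReal (C * aa m β s A l) * (cyl m ν S) ^ (1 + 2 * s)) ∧
    ((∀ s, s ≤ 1 → θ s = 1) → ∀ A : ℝ, 4 ≤ A → En (hi m ψ θ A) g (cyl m ν) ≤
      ENNReal.ofReal (C * aa m β s A 1) * (cyl m ν S) ^ (1 + 2 * s))

end Pool.Agent.Y248.FE
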