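import Mathlib
import Pool.Agent.Y248.FE.Stm
set_option autoImplicit false

/-! # Project FE: exponents for `k = 1` -/

namespace Pool.Agent.Y248.FE

open Pool.Agent.Y248.FC (th)

theorem aa_pow (m : ℕ) {A v β s : ℝ} (hA : 1 ≤ A) :
    aa m β s A (A ^ (-v)) ≤ A ^ (max (-((1 - β) * (1 - v)) -
      2 * s * ((m : ℝ) / 2 + β + v * (1 - β)))
      (-1 + v * (1 + β) - 2 * s * v * ((m : ℝ) + 1 + β))) := by
  have hA0 : 0 < A := by linarith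
  unfold aa
  refine max_le ?_ ?_
  · have a2 : A * A ^ (-v) = A ^ (1 - v) := by
      nth_rw 1 [← Real.rpow_one A]
      rw [← Real.rpow_add hA0]; congr 1
    rw [a2, ← Real.rpow_mul hA0.le, ← Real.rpow_mul hA0.le, ← Real.rpow_add hA0,
      ← Real.rpow_mul hA0.le, ← Real.rpow_add hA0]
    refine Real.rpow_le_rpow_of_exponent_le hA (le_trans (le_of_eq ?_) (le_max_left _ _))
    ring
  · rw [← Real.rpow_neg_one, ← Real.rpow_mul hA0.le, ← Real.rpow_add hA0]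
    refine Real.rpow_le_rpow_of_exponent_le hA (le_trans (le_of_eq ?_) (le_max_right _ _))
    ring

/-- the exponents of the pieces, `k = 1` -/
theorem exp_two (m : ℕ) {A v β₁ β₂ s p ε M₀ : ℝ} (hA : 1 ≤ A) (hv0 : 0 ≤ v) (hv : v ≤ 1 / 2)
    (h10 : 0 ≤ β₁) (h11 : β₁ ≤ 1) (hp : 2 ≤ p) (hps : p / 2 - 1 = p * s) (hs0 : 0 ≤ s)
    (hs : 2 * ((m : ℝ) + 1) * s ≤ 1) (hε : 0 ≤ ε)
    (hA0 : (m : ℝ) * s - ((1 - β₁) * (1 + 2 * s) + (1 - β₂) * (1 - 2 * s)) ≤ M₀)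
    (hA1 : ((m : ℝ) - 1) * s - ((1 - β₁) * (1 / 2 + s) + (1 - β₂) * (1 / 2 - s)) ≤ M₀)
    (hL : 2 * s * ((m : ℝ) + 1) - 1 ≤ M₀) :
    (A ^ ε * aa m β₂ s A (A ^ (-v)) * (A * A ^ (-v)) ^ (-(1 - β₁))) ^ (p / 2) *
      ((A ^ (1 + ε)) ^ m * (A ^ (-v) * A ^ (1 + ε)) ^ β₁) ^ (p / 2 - 1) ≤
      A ^ (p * (M₀ / 2 + ε)) := by
  have hAp : 0 < A := by linarith
  have hp0 : 0 < p := by linarith
  set e : ℝ := max (-((1 - β₂) * (1 - v)) - 2 * s * ((m : ℝ) / 2 + β₂ + v * (1 - β₂)))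
      (-1 + v * (1 + β₂) - 2 * s * v * ((m : ℝ) + 1 + β₂)) with he
  have ha := aa_pow m (v := v) (β := β₂) (s := s) hA
  rw [← he] at ha
  have ha0 : 0 ≤ aa m β₂ s A (A ^ (-v)) := by
    unfold aa
    exact le_trans (by positivity) (le_max_right _ _)
  have a2 : A * A ^ (-v) = A ^ (1 - v) := by
    nth_rw 1 [← Real.rpow_one A]
    rw [← Real.rpow_add hAp]; congr 1
  have a3 : (A ^ (1 + ε)) ^ m = A ^ ((1 + ε) * (m : ℝ)) := by
    rw [← Real.rpow_natCast, ← Real.rpow_mul hAp.le]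
  have a4 : A ^ (-v) * A ^ (1 + ε) = A ^ (-v + (1 + ε)) := by rw [← Real.rpow_add hAp]
  have step : (A ^ ε * aa m β₂ s A (A ^ (-v)) * (A * A ^ (-v)) ^ (-(1 - β₁))) ^ (p / 2) ≤
      (A ^ ε * A ^ e * (A * A ^ (-v)) ^ (-(1 - β₁))) ^ (p / 2) := by
    gcongr
  refine (mul_le_mul_of_nonneg_right step (by positivity)).trans ?_
  rw [a2, a3, a4, hps, ← Real.rpow_mul hAp.le, ← Real.rpow_mul hAp.le, ← Real.rpow_add hAp,
    ← Real.rpow_add hAp, ← Real.rpow_add hAp, ← Real.rpow_mul hAp.le, ← Real.rpow_mul hAp.le,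
    ← Real.rpow_add hAp]
  refine Real.rpow_le_rpow_of_exponent_le hA ?_
  have hm0 : (0 : ℝ) ≤ m := by positivity
  -- the two linear functions of `v`
  have T1 : -((1 - β₂) * (1 - v)) - 2 * s * ((m : ℝ) / 2 + β₂ + v * (1 - β₂)) +
      (1 - v) * -(1 - β₁) + 2 * s * ((m : ℝ) + β₁ * (1 - v)) ≤ M₀ := by
    have e1 : -((1 - β₂) * (1 - v)) - 2 * s * ((m : ℝ) / 2 + β₂ + v * (1 - β₂)) +
      (1 - v) * -(1 - β₁) + 2 * s * ((m : ℝ) + β₁ * (1 - v)) =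
      (1 - 2 * v) * ((m : ℝ) * s - ((1 - β₁) * (1 + 2 * s) + (1 - β₂) * (1 - 2 * s))) +
      (2 * v) * (((m : ℝ) - 1) * s - ((1 - β₁) * (1 / 2 + s) + (1 - β₂) * (1 / 2 - s))) := by
      ring
    rw [e1]
    have f1 := mul_le_mul_of_nonneg_left hA0 (show 0 ≤ 1 - 2 * v by linarith)
    have f2 := mul_le_mul_of_nonneg_left hA1 (show 0 ≤ 2 * v by linarith)
    linarith
  have T2 : -1 + v * (1 + β₂) - 2 * s * v * ((m : ℝ) + 1 + β₂) +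
      (1 - v) * -(1 - β₁) + 2 * s * ((m : ℝ) + β₁ * (1 - v)) ≤ M₀ := by
    have e1 : -1 + v * (1 + β₂) - 2 * s * v * ((m : ℝ) + 1 + β₂) +
      (1 - v) * -(1 - β₁) + 2 * s * ((m : ℝ) + β₁ * (1 - v)) =
      (1 - 2 * v) * (-1 - (1 - β₁) + 2 * s * ((m : ℝ) + β₁)) +
      (2 * v) * (((m : ℝ) - 1) * s - ((1 - β₁) * (1 / 2 + s) + (1 - β₂) * (1 / 2 - s))) := by
      ring
    rw [e1]
    have f0 : -1 - (1 - β₁) + 2 * s * ((m : ℝ) + β₁) ≤ M₀ := by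
      refine le_trans ?_ hL
      have : 2 * s * ((m : ℝ) + β₁) ≤ 2 * s * ((m : ℝ) + 1) := by gcongr
      linarith
    have f1 := mul_le_mul_of_nonneg_left f0 (show 0 ≤ 1 - 2 * v by linarith)
    have f2 := mul_le_mul_of_nonneg_left hA1 (show 0 ≤ 2 * v by linarith)
    linarith
  have T : e + (1 - v) * -(1 - β₁) + 2 * s * ((m : ℝ) + β₁ * (1 - v)) ≤ M₀ := by
    rcases max_cases (-((1 - β₂) * (1 - v)) - 2 * s * ((m : ℝ) / 2 + β₂ + v * (1 - β₂)))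
      (-1 + v * (1 + β₂) - 2 * s * v * ((m : ℝ) + 1 + β₂)) with ⟨h, -⟩ | ⟨h, -⟩
    · rw [he, h]; linarith
    · rw [he, h]; linarith
  have g1 : 2 * s * ((m : ℝ) + β₁) ≤ 1 := by
    refine le_trans ?_ hs
    have : 2 * s * ((m : ℝ) + β₁) ≤ 2 * s * ((m : ℝ) + 1) := by gcongr
    linarith
  have g2 : ε * (2 * s * ((m : ℝ) + β₁)) ≤ ε * 1 := mul_le_mul_of_nonneg_left g1 hε
  have e9 : (ε + e + (1 - v) * -(1 - β₁)) * (p / 2) +
      ((1 + ε) * (m : ℝ) + (-v + (1 + ε)) * β₁) * (p * s) =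
      p / 2 * ((e + (1 - v) * -(1 - β₁) + 2 * s * ((m : ℝ) + β₁ * (1 - v))) +
        (ε + ε * (2 * s * ((m : ℝ) + β₁)))) := by
    ring
  rw [e9]
  have e10 : p * (M₀ / 2 + ε) = p / 2 * (M₀ + 2 * ε) := by ring
  rw [e10]
  refine mul_le_mul_of_nonneg_left ?_ (by positivity)
  linarith

end Pool.Agent.Y248.FE
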