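import Mathlib
import Pool.Agent.Y248.FE.Stm
import Pool.Agent.Y248.FD.MD
set_option autoImplicit false

/-! # Project FE: duality between two measures -/

namespace Pool.Agent.Y248.FE

open MeasureTheory Set Metric Complex Filter
open scoped ENNReal RealInnerProductSpace Topology FourierTransform
open Pool.Agent.H789R2.FR (E sg T)
open Pool.Agent.Y248.BA (four_eq four_bdd)
open Pool.Agent.Y248.FB Pool.Agent.Y248.FC Pool.Agent.Y248.FD
open Pool.Agent.Y515.FB (gt gt_norm gt_meas absorb sq_mul_pow ind_int)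

/-- bounded functions of bounded support are integrable with respect to measures finite on balls -/
theorem bb_int {n : ℕ} {f : E n → ℂ} (hf : BB f) {μ : Measure (E n)} (hμ : Fb μ) :
    Integrable f μ := by
  obtain ⟨hm, ⟨M, hM⟩, ρ, hρ⟩ := hf
  have h0 : ∀ x, ‖f x‖ ≤ (closedBall (0 : E n) ρ).indicator (fun _ => |M|) x := by
    intro x
    by_cases hx : x ∈ closedBall (0 : E n) ρ
    · rw [indicator_of_mem hx]; exact (hM x).trans (le_abs_self M)
    · rw [indicator_of_notMem hx, hρ x hx, norm_zero]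
  have h1 : Integrable ((closedBall (0 : E n) ρ).indicator (fun _ => |M|)) μ := by
    rw [integrable_indicator_iff isClosed_closedBall.measurableSet]
    exact integrableOn_const (hs := (hμ 0 ρ).ne)
  exact h1.mono' hm.aestronglyMeasurable (Eventually.of_forall h0)

theorem Fm_bdd {n : ℕ} {f : E n → ℂ} (μ : Measure (E n)) (ξ : E n) :
    ‖Fm f μ ξ‖ ≤ ∫ x, ‖f x‖ ∂μ := by
  unfold Fm
  refine (norm_integral_le_integral_norm _).trans (le_of_eq ?_)
  congr 1; funext x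
  rw [norm_mul, Complex.norm_exp_ofReal_mul_I, mul_one]

theorem Fm_cont {n : ℕ} {f : E n → ℂ} {μ : Measure (E n)} (hf : Integrable f μ) :
    Continuous (Fm f μ) := by
  unfold Fm
  refine continuous_of_dominated (bound := fun x => ‖f x‖) (fun ξ => ?_) (fun ξ => ?_) hf.norm
    (Eventually.of_forall fun x => ?_)
  · have h1 : Continuous fun x : E n => cexp (((2 * Real.pi * ⟪x, ξ⟫ : ℝ) : ℂ) * I) := by
      fun_prop
    exact hf.aestronglyMeasurable.mul h1.aestronglyMeasurable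
  · refine Eventually.of_forall fun x => ?_
    rw [norm_mul, Complex.norm_exp_ofReal_mul_I, mul_one]
  · have h1 : Continuous fun ξ : E n => cexp (((2 * Real.pi * ⟪x, ξ⟫ : ℝ) : ℂ) * I) := by
      fun_prop
    exact continuous_const.mul h1

section

variable {n : ℕ} {q : E n → ℂ} (hq : Continuous q) (hqe : ∀ ξ, q (-ξ) = q ξ)
  (hq2 : ∀ ξ, 2 < ‖ξ‖ → q ξ = 0)

include hq hq2 in
/-- the operator on the spectral side -/
theorem Tm_eq {f : E n → ℂ} {μ : Measure (E n)} [SFinite μ] (hf : Integrable f μ) (x : E n) :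
    Tm q f μ x = ∫ ξ, cexp (((-2 * Real.pi * ⟪x, ξ⟫ : ℝ) : ℂ) * I) * (q ξ * Fm f μ ξ) := by
  have hqi := q_int hq hq2
  have hprod : Integrable (fun z : E n × E n =>
      (f z.1 * q z.2) * cexp (((-2 * Real.pi * ⟪z.2, x - z.1⟫ : ℝ) : ℂ) * I))
      (μ.prod (volume : Measure (E n))) := by
    have h1 := hf.mul_prod hqi
    have h2 : Continuous fun z : E n × E n =>
        cexp (((-2 * Real.pi * ⟪z.2, x - z.1⟫ : ℝ) : ℂ) * I) := by fun_prop
    refine (h1.norm).mono' (h1.aestronglyMeasurable.mul h2.aestronglyMeasurable)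
      (Eventually.of_forall fun z => ?_)
    rw [norm_mul, Complex.norm_exp_ofReal_mul_I, mul_one]
  unfold Tm Fm
  have e1 : ∀ y, 𝓕 q (x - y) * f y =
      ∫ ξ, (f y * q ξ) * cexp (((-2 * Real.pi * ⟪ξ, x - y⟫ : ℝ) : ℂ) * I) := by
    intro y
    rw [four_eq, ← integral_mul_const]
    congr 1; funext ξ; ring
  simp only [e1]
  rw [integral_integral_swap hprod]
  refine integral_congr_ae (Eventually.of_forall fun ξ => ?_)
  simp only
  rw [← integral_const_mul, ← integral_const_mul]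
  refine integral_congr_ae (Eventually.of_forall fun y => ?_)
  simp only
  have e2 : cexp (((-2 * Real.pi * ⟪ξ, x - y⟫ : ℝ) : ℂ) * I) =
      cexp (((-2 * Real.pi * ⟪x, ξ⟫ : ℝ) : ℂ) * I) * cexp (((2 * Real.pi * ⟪y, ξ⟫ : ℝ) : ℂ) * I) := by
    rw [← Complex.exp_add]
    congr 1
    rw [inner_sub_right, real_inner_comm x ξ, real_inner_comm y ξ]
    push_cast
    ring
  rw [e2]
  ring

include hq hq2 in
theorem Tm_cont {f : E n → ℂ} {μ : Measure (E n)} [SFinite μ] (hf : Integrable f μ) :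
    Continuous (Tm q f μ) := by
  have e : Tm q f μ = fun x => ∫ ξ, cexp (((-2 * Real.pi * ⟪x, ξ⟫ : ℝ) : ℂ) * I) *
      (q ξ * Fm f μ ξ) := by
    funext x; exact Tm_eq hq hq2 hf x
  rw [e]
  have hqi := q_int hq hq2
  refine continuous_of_dominated (bound := fun ξ => ‖q ξ‖ * ∫ x, ‖f x‖ ∂μ) (fun x => ?_)
    (fun x => ?_) (hqi.norm.mul_const _) (Eventually.of_forall fun ξ => ?_)
  · have h1 : Continuous fun ξ : E n => cexp (((-2 * Real.pi * ⟪x, ξ⟫ : ℝ) : ℂ) * I) := by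
      fun_prop
    exact (h1.mul (hq.mul (Fm_cont hf))).aestronglyMeasurable
  · refine Eventually.of_forall fun ξ => ?_
    rw [norm_mul, Complex.norm_exp_ofReal_mul_I, one_mul, norm_mul]
    exact mul_le_mul_of_nonneg_left (Fm_bdd μ ξ) (norm_nonneg _)
  · have h1 : Continuous fun x : E n => cexp (((-2 * Real.pi * ⟪x, ξ⟫ : ℝ) : ℂ) * I) := by
      fun_prop
    exact h1.mul continuous_const

include hq hq2 in
theorem Tm_bdd {f : E n → ℂ} {μ : Measure (E n)} [SFinite μ] (hf : Integrable f μ) :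
    ∃ M : ℝ, 0 ≤ M ∧ ∀ x, ‖Tm q f μ x‖ ≤ M := by
  have hqi := q_int hq hq2
  refine ⟨∫ ξ, ‖q ξ‖ * ∫ x, ‖f x‖ ∂μ, integral_nonneg fun ξ => by positivity, fun x => ?_⟩
  rw [Tm_eq hq hq2 hf]
  refine norm_integral_le_of_norm_le (hqi.norm.mul_const _) (Eventually.of_forall fun ξ => ?_)
  rw [norm_mul, Complex.norm_exp_ofReal_mul_I, one_mul, norm_mul]
  exact mul_le_mul_of_nonneg_left (Fm_bdd μ ξ) (norm_nonneg _)

include hq hq2 in
/-- the pairing -/
theorem pairm {f g : E n → ℂ} {μ ν : Measure (E n)} [SFinite μ] [SFinite ν] (hf : Integrable f μ)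
    (hg : Integrable g ν) :
    ∫ x, Tm q f μ x * g x ∂ν = ∫ ξ, (q ξ * Fm f μ ξ) * Fm g ν (-ξ) := by
  have hqi := q_int hq hq2
  have hqf : Integrable fun ξ => q ξ * Fm f μ ξ := by
    refine (hqi.norm.mul_const (∫ x, ‖f x‖ ∂μ)).mono' (hq.mul (Fm_cont hf)).aestronglyMeasurable
      (Eventually.of_forall fun ξ => ?_)
    rw [norm_mul]
    exact mul_le_mul_of_nonneg_left (Fm_bdd μ ξ) (norm_nonneg _)
  have hprod : Integrable (fun z : E n × E n =>
      (g z.1 * (q z.2 * Fm f μ z.2)) * cexp (((-2 * Real.pi * ⟪z.1, z.2⟫ : ℝ) : ℂ) * I))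
      (ν.prod (volume : Measure (E n))) := by
    have h1 := hg.mul_prod hqf
    have h2 : Continuous fun z : E n × E n =>
        cexp (((-2 * Real.pi * ⟪z.1, z.2⟫ : ℝ) : ℂ) * I) := by fun_prop
    refine (h1.norm).mono' (h1.aestronglyMeasurable.mul h2.aestronglyMeasurable)
      (Eventually.of_forall fun z => ?_)
    rw [norm_mul, Complex.norm_exp_ofReal_mul_I, mul_one]
  have e1 : ∀ x, Tm q f μ x * g x = ∫ ξ, (g x * (q ξ * Fm f μ ξ)) *
      cexp (((-2 * Real.pi * ⟪x, ξ⟫ : ℝ) : ℂ) * I) := by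
    intro x
    rw [Tm_eq hq hq2 hf, ← integral_mul_const]
    congr 1; funext ξ; ring
  simp only [e1]
  rw [integral_integral_swap hprod]
  refine integral_congr_ae (Eventually.of_forall fun ξ => ?_)
  change ∫ x, (g x * (q ξ * Fm f μ ξ)) * cexp (((-2 * Real.pi * ⟪x, ξ⟫ : ℝ) : ℂ) * I) ∂ν =
    (q ξ * Fm f μ ξ) * ∫ x, g x * cexp (((2 * Real.pi * ⟪x, -ξ⟫ : ℝ) : ℂ) * I) ∂ν
  rw [← integral_const_mul]
  refine integral_congr_ae (Eventually.of_forall fun x => ?_)
  simp only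
  rw [inner_neg_right]
  have : ((-2 * Real.pi * ⟪x, ξ⟫ : ℝ) : ℂ) = ((2 * Real.pi * -⟪x, ξ⟫ : ℝ) : ℂ) := by
    push_cast; ring
  rw [this]
  ring

include hq hq2 hqe in
theorem pairm_le {f g : E n → ℂ} {μ ν : Measure (E n)} [SFinite μ] [SFinite ν]
    (hf : Integrable f μ) (hg : Integrable g ν) :
    ‖∫ x, Tm q f μ x * g x ∂ν‖ₑ ≤
      (∫⁻ ξ in {ξ | q ξ ≠ 0}, ‖Fm f μ ξ‖ₑ ^ (2 : ℝ)) ^ (1 / 2 : ℝ) * (En q g ν) ^ (1 / 2 : ℝ) := by
  rw [pairm hq hq2 hf hg]
  have hS : MeasurableSet {ξ : E n | q ξ ≠ 0} := (hq.measurable (measurableSet_singleton 0)).compl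
  refine (enorm_integral_le_lintegral_enorm _).trans ?_
  have h1 := ENNReal.lintegral_mul_le_Lp_mul_Lq (volume : Measure (E n))
    (p := 2) (q := 2) (by constructor <;> norm_num)
    (f := ({ξ : E n | q ξ ≠ 0}).indicator fun ξ => ‖Fm f μ ξ‖ₑ)
    (g := fun ξ => ‖q (-ξ) * Fm g ν (-ξ)‖ₑ)
    ((Fm_cont hf).measurable.enorm.indicator hS).aemeasurable
    (((hq.mul (Fm_cont hg)).comp continuous_neg).measurable.enorm.aemeasurable)
  have h2 : ∫⁻ ξ, ‖q (-ξ) * Fm g ν (-ξ)‖ₑ ^ (2 : ℝ) = En q g ν :=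
    lintegral_neg_eq_self (fun ξ => ‖q ξ * Fm g ν ξ‖ₑ ^ (2 : ℝ))
  have h3 : ∫⁻ ξ, (({ξ : E n | q ξ ≠ 0}).indicator (fun ξ => ‖Fm f μ ξ‖ₑ) ξ) ^ (2 : ℝ) =
      ∫⁻ ξ in {ξ | q ξ ≠ 0}, ‖Fm f μ ξ‖ₑ ^ (2 : ℝ) := by
    rw [← lintegral_indicator hS]
    refine lintegral_congr fun ξ => ?_
    by_cases h : ξ ∈ {ξ : E n | q ξ ≠ 0}
    · rw [indicator_of_mem h, indicator_of_mem h]
    · rw [indicator_of_notMem h, indicator_of_notMem h, ENNReal.zero_rpow_of_pos (by norm_num)]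
  rw [h2, h3] at h1
  refine le_trans (le_of_eq ?_) h1
  refine lintegral_congr fun ξ => ?_
  rw [Pi.mul_apply]
  by_cases h : ξ ∈ {ξ : E n | q ξ ≠ 0}
  · rw [indicator_of_mem h, hqe, enorm_mul, enorm_mul, enorm_mul]
    ring
  · rw [indicator_of_notMem h]
    simp only [mem_ofPred_eq, not_not] at h
    rw [h]
    simp

end

theorem t_mm (n : ℕ) : S_MM n := by
  intro q hq hqe hq2 μ₁ μ hμ₁ hμ p c hp hc0 hE f hf
  have hp0 : 0 < p := by linarith
  have hp1 : 0 < p - 1 := by linarith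
  have hlf : ∀ ν : Measure (E n), Fb ν → IsLocallyFiniteMeasure ν := fun ν hν =>
    ⟨fun x => ⟨closedBall x 1, closedBall_mem_nhds x one_pos, hν x 1⟩⟩
  have := hlf μ₁ hμ₁
  have := hlf μ hμ
  have hfi := bb_int hf hμ₁
  have hU : (⋃ N : ℕ, closedBall (0 : E n) N) = univ := by
    ext x
    simp only [mem_iUnion, mem_closedBall_zero_iff, mem_univ, iff_true]
    exact exists_nat_ge ‖x‖
  have hmono : Monotone fun N : ℕ => closedBall (0 : E n) N := fun a b hab =>
    closedBall_subset_closedBall (by exact_mod_cast hab)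
  rw [← setLIntegral_univ, ← hU, setLIntegral_iUnion_of_directed _
    (hmono.directed_le)]
  refine iSup_le fun L => ?_
  set B := closedBall (0 : E n) L with hB
  have hBm : MeasurableSet B := isClosed_closedBall.measurableSet
  have : IsFiniteMeasure (μ.restrict B) := ⟨by rw [Measure.restrict_apply_univ]; exact hμ 0 L⟩
  obtain ⟨K, hK, hKb⟩ := Tm_bdd hq hq2 hfi
  have hFm := (Tm_cont hq hq2 hfi).measurable
  set F := Tm q f μ₁ with hF
  set g := gt F B p with hg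
  have hgm : Measurable g := gt_meas hFm hBm p
  have hgb : ∀ x, ‖g x‖ ≤ K ^ (p - 1) := by
    intro x
    rw [hg, gt_norm F B hp]
    by_cases hx : x ∈ B
    · rw [indicator_of_mem hx]
      exact Real.rpow_le_rpow (norm_nonneg _) (hKb x) hp1.le
    · rw [indicator_of_notMem hx]; positivity
  have hg0 : ∀ x, x ∉ B → g x = 0 := fun x hx => indicator_of_notMem hx _
  have hgBB : BB g := ⟨hgm, ⟨_, hgb⟩, L, hg0⟩
  have h1 := hE g hgBB
  have h3 := pairm_le hq hqe hq2 hfi (bb_int hgBB hμ)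
  have hres : ∫ x, Tm q f μ₁ x * g x ∂μ = ∫ x, Tm q f μ₁ x * g x ∂(μ.restrict B) :=
    (setIntegral_eq_integral_of_forall_compl_eq_zero fun x hx => by rw [hg0 x hx, mul_zero]).symm
  rw [hres] at h3
  set J : ℝ≥0∞ := ∫⁻ x in B, ‖F x‖ₑ ^ p ∂μ with hJ
  have hen : ∀ x, ENNReal.ofReal (‖F x‖ ^ p) = ‖F x‖ₑ ^ p := by
    intro x
    rw [← ofReal_norm, ENNReal.ofReal_rpow_of_nonneg (norm_nonneg _) hp0.le]
  have hFi : Integrable (fun x => ‖F x‖ ^ p) (μ.restrict B) := by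
    refine Integrable.of_bound (C := K ^ p) (hFm.norm.pow_const _).aestronglyMeasurable
      (Eventually.of_forall fun x => ?_)
    rw [Real.norm_of_nonneg (by positivity)]
    exact Real.rpow_le_rpow (norm_nonneg _) (hKb x) hp0.le
  have hJe : ENNReal.ofReal (∫ x in B, ‖F x‖ ^ p ∂μ) = J := by
    rw [ofReal_integral_eq_lintegral_ofReal hFi (Eventually.of_forall fun x => by positivity)]
    exact lintegral_congr fun x => hen x
  have hJf : J ≠ ∞ := by rw [← hJe]; exact ENNReal.ofReal_ne_top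
  have h4 : ‖∫ x, F x * g x ∂(μ.restrict B)‖ₑ = J := by
    have e1 : ∫ x, F x * g x ∂(μ.restrict B) = ((∫ x in B, ‖F x‖ ^ p ∂μ : ℝ) : ℂ) := by
      rw [← integral_complex_ofReal]
      refine setIntegral_congr_fun hBm fun x hx => ?_
      simp only [hg, gt]
      rw [indicator_of_mem hx, ← mul_assoc, Complex.mul_conj, Complex.normSq_eq_norm_sq,
        ← Complex.ofReal_mul, sq_mul_pow (norm_nonneg _) hp]
    rw [e1, ← hJe, ← ofReal_norm, Complex.norm_real, Real.norm_of_nonneg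
      (integral_nonneg fun x => by positivity)]
  have h5 : ∫⁻ x, ‖g x‖ₑ ^ (p / (p - 1)) ∂μ = J := by
    rw [hJ, ← lintegral_indicator hBm]
    refine lintegral_congr fun x => ?_
    rw [← ofReal_norm, hg, gt_norm F B hp]
    by_cases hx : x ∈ B
    · rw [indicator_of_mem hx, indicator_of_mem hx,
        ENNReal.ofReal_rpow_of_nonneg (by positivity) (by positivity),
        ← Real.rpow_mul (norm_nonneg _), mul_div_cancel₀ _ hp1.ne', hen]
    · rw [indicator_of_notMem hx, indicator_of_notMem hx, ENNReal.ofReal_zero,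
        ENNReal.zero_rpow_of_pos (by positivity)]
  rw [h4] at h3
  rw [h5] at h1
  set N : ℝ≥0∞ := ∫⁻ ξ in {ξ | q ξ ≠ 0}, ‖Fm f μ₁ ξ‖ₑ ^ (2 : ℝ) with hN
  have h6 : J ≤ (N ^ (1 / 2 : ℝ) * ENNReal.ofReal c ^ (1 / 2 : ℝ)) * J ^ ((p - 1) / p) := by
    refine h3.trans ?_
    rw [mul_assoc]
    gcongr
    refine (ENNReal.rpow_le_rpow h1 (by norm_num)).trans (le_of_eq ?_)
    rw [ENNReal.mul_rpow_of_nonneg _ _ (by norm_num), ← ENNReal.rpow_mul]
    congr 2
    field_simp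
  refine (absorb hJf (by linarith) h6).trans (le_of_eq ?_)
  rw [ENNReal.mul_rpow_of_nonneg _ _ hp0.le, ← ENNReal.rpow_mul, ← ENNReal.rpow_mul,
    ← ENNReal.ofReal_rpow_of_nonneg hc0 (by positivity), mul_comm]
  congr 2 <;> ring

end Pool.Agent.Y248.FE
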