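import Mathlib
import Pool.Agent.Y248.FE.MM
import Pool.Agent.Y248.FD.NB2
import Pool.Agent.Y93.FD.SB
set_option autoImplicit false

/-! # Project FE: local bounds between two measures: abstract part, `k = 1` -/

namespace Pool.Agent.Y248.FE

open MeasureTheory Set Metric Complex Filter
open scoped ENNReal RealInnerProductSpace Topology FourierTransform
open Pool.Agent.H789R2.FR (E sg T)
open Pool.Agent.H438R2.RZ (Bump)
open Pool.Agent.Y248.BA (mu Kr Tp ball_vol)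
open Pool.Agent.Y248.FB Pool.Agent.Y248.FC Pool.Agent.Y248.FD

/-- Hölder on a set -/
theorem hol {n : ℕ} {μ : Measure (E n)} {g : E n → ℂ} (hg : Measurable g) {B : Set (E n)}
    (hB : MeasurableSet B) (hs : ∀ x, x ∉ B → g x = 0) (q p : ℝ) (hq : 0 < q) (hqp : q ≤ p) :
    ∫⁻ x, ‖g x‖ₑ ^ q ∂μ ≤ μ B ^ (1 - q / p) * (∫⁻ x, ‖g x‖ₑ ^ p ∂μ) ^ (q / p) := by
  have hp0 : 0 < p := by linarith
  have h1 := ENNReal.lintegral_mul_norm_pow_le (μ := μ)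
    (f := B.indicator (1 : E n → ℝ≥0∞)) (g := fun x => ‖g x‖ₑ ^ p)
    (measurable_one.indicator hB).aemeasurable (hg.enorm.pow_const _).aemeasurable
    (p := 1 - q / p) (q := q / p) (by rw [sub_nonneg, div_le_one hp0]; exact hqp)
    (by positivity) (by ring)
  rw [lintegral_indicator_one hB] at h1
  refine (lintegral_mono fun x => ?_).trans h1
  by_cases hx : x ∈ B
  · simp only [indicator_of_mem hx, Pi.one_apply, ENNReal.one_rpow, one_mul]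
    rw [← ENNReal.rpow_mul, mul_div_cancel₀ _ hp0.ne']
  · rw [hs x hx, enorm_zero, ENNReal.zero_rpow_of_pos hq]
    exact zero_le

/-- local bound from a gain on the input side and an energy bound on the output side -/
theorem loc_mm {n : ℕ} {q : E n → ℂ} (hq : Continuous q) (hqe : ∀ ξ, q (-ξ) = q ξ)
    (hq2 : ∀ ξ, 2 < ‖ξ‖ → q ξ = 0) {μ₁ μ₂ : Measure (E n)} (h1 : Fb μ₁) (h2 : Fb μ₂)
    {p c G W : ℝ} (hp : 2 ≤ p) (hc : 0 ≤ c) (hG : 0 ≤ G) (hW : 0 ≤ W)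
    (hE : ∀ g : E n → ℂ, BB g → En q g μ₂ ≤ ENNReal.ofReal c *
      (∫⁻ x, ‖g x‖ₑ ^ (p / (p - 1)) ∂μ₂) ^ (2 * (p - 1) / p))
    {f : E n → ℂ} (hf : BB f)
    (hgain : ∫⁻ ξ in {ξ | q ξ ≠ 0}, ‖Fm f μ₁ ξ‖ₑ ^ (2 : ℝ) ≤
      ENNReal.ofReal G * ∫⁻ x, ‖f x‖ₑ ^ (2 : ℝ) ∂μ₁)
    {S : Set (E n)} (hS : MeasurableSet S) (hfS : ∀ x, x ∉ S → f x = 0)
    (hWS : μ₁ S ≤ ENNReal.ofReal W) :
    ∫⁻ x, ‖Tm q f μ₁ x‖ₑ ^ p ∂μ₂ ≤
      ENNReal.ofReal ((c * G) ^ (p / 2) * W ^ (p / 2 - 1)) * ∫⁻ x, ‖f x‖ₑ ^ p ∂μ₁ := by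
  have hp0 : 0 < p := by linarith
  have h2p : 0 ≤ 1 - 2 / p := by
    rw [sub_nonneg, div_le_one hp0]; exact hp
  refine (t_mm n q hq hqe hq2 μ₁ μ₂ h1 h2 p c hp hc hE f hf).trans ?_
  have e1 : ∫⁻ x, ‖f x‖ₑ ^ (2 : ℝ) ∂μ₁ ≤
      ENNReal.ofReal W ^ (1 - 2 / p) * (∫⁻ x, ‖f x‖ₑ ^ p ∂μ₁) ^ (2 / p) :=
    (hol hf.1 hS hfS 2 p two_pos hp).trans (mul_le_mul' (ENNReal.rpow_le_rpow hWS h2p) le_rfl)
  have e2 := ENNReal.rpow_le_rpow (hgain.trans (mul_le_mul' (le_refl (ENNReal.ofReal G)) e1))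
    (show 0 ≤ p / 2 by positivity)
  refine (mul_le_mul' le_rfl e2).trans (le_of_eq ?_)
  rw [ENNReal.mul_rpow_of_nonneg _ _ (by positivity), ENNReal.mul_rpow_of_nonneg _ _ (by positivity),
    ← ENNReal.rpow_mul, ← ENNReal.rpow_mul, show 2 / p * (p / 2) = 1 by field_simp,
    ENNReal.rpow_one, show (1 - 2 / p) * (p / 2) = p / 2 - 1 by field_simp,
    ENNReal.ofReal_rpow_of_nonneg hG (by positivity),
    ENNReal.ofReal_rpow_of_nonneg hW (by linarith), ← mul_assoc, ← mul_assoc,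
    ← ENNReal.ofReal_mul (by positivity), ← ENNReal.ofReal_mul (by positivity)]
  congr 2
  rw [Real.mul_rpow hc hG]

/-- energies from restricted estimates -/
theorem en_core (n : ℕ) (hLS : S_LS n) (p ε : ℝ) (hp : 2 ≤ p) (hε : 0 < ε) (C₃ : ℝ)
    (hC₃ : 0 < C₃) : ∃ C : ℝ, 0 < C ∧ ∀ μ : Measure (E n), Fb μ → ∀ q : E n → ℂ, Continuous q →
    (∀ ξ, 2 < ‖ξ‖ → q ξ = 0) → ∀ A a y z : ℝ, 4 ≤ A → 0 < a → z ≤ a → y ≤ a * A ^ 2 →
    (p = 2 → y ≤ a) →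
    (∀ g : E n → ℂ, BB g → ∀ S : Set (E n), MeasurableSet S → μ S ≠ ∞ → (∀ x, ‖g x‖ ≤ 1) →
      (∀ x, x ∉ S → g x = 0) →
      En q g μ ≤ ENNReal.ofReal (C₃ * a) * (μ S) ^ (2 * (p - 1) / p)) →
    (∀ g : E n → ℂ, BB g → En q g μ ≤ ENNReal.ofReal (C₃ * z) * (∫⁻ x, ‖g x‖ₑ ∂μ) ^ (2 : ℝ)) →
    (∀ g : E n → ℂ, BB g → En q g μ ≤ ENNReal.ofReal (C₃ * y) * ∫⁻ x, ‖g x‖ₑ ^ (2 : ℝ) ∂μ) →
    ∀ g : E n → ℂ, BB g → En q g μ ≤ ENNReal.ofReal (C * (A ^ ε * a)) *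
      (∫⁻ x, ‖g x‖ₑ ^ (p / (p - 1)) ∂μ) ^ (2 * (p - 1) / p) := by
  have hp0 : 0 < p := by linarith
  have hp1 : 0 < p - 1 := by linarith
  rcases hp.eq_or_lt with hp2 | hp2
  · refine ⟨C₃, hC₃, fun μ hμ q hq hq2 A a y z hA ha hz hy hy2 hR h1 h2 g hg => ?_⟩
    have hA1 : 1 ≤ A ^ ε := Real.one_le_rpow (by linarith) hε.le
    rw [← hp2]
    norm_num
    refine (h2 g hg).trans ?_
    norm_num
    refine mul_le_mul' (ENNReal.ofReal_le_ofReal ?_) le_rfl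
    refine mul_le_mul_of_nonneg_left ((hy2 hp2.symm).trans ?_) hC₃.le
    nlinarith
  · set r : ℝ := p / (p - 1) with hr
    have hr1 : 1 < r := by rw [hr, lt_div_iff₀ hp1]; linarith
    have hr2 : r < 2 := by rw [hr, div_lt_iff₀ hp1]; linarith
    have h2r : 2 / r = 2 * (p - 1) / p := by rw [hr]; field_simp
    obtain ⟨C, hC, hb⟩ := hLS r hr1 hr2
    refine ⟨C * C₃ * (16 / ε ^ 2), by positivity,
      fun μ hμ q hq hq2 A a y z hA ha hz hy hy2 hR h1 h2 g hg => ?_⟩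
    have hA0 : 0 < A := by linarith
    have key := hb μ hμ q hq hq2 (C₃ * a) (A ^ 2) (by positivity) (by nlinarith)
      (fun g hg S hS hSf hg1 hg0 => ?_) (fun g hg => ?_) (fun g hg => ?_) g hg
    · rw [h2r] at key
      refine key.trans (mul_le_mul' (ENNReal.ofReal_le_ofReal ?_) le_rfl)
      calc C * (C₃ * a) * Real.log (A ^ 2) ^ 2 ≤ C * (C₃ * a) * (16 / ε ^ 2 * A ^ ε) := by
            refine mul_le_mul_of_nonneg_left (log_sq_le hA hε) (by positivity)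
        _ = _ := by ring
    · rw [h2r]
      exact hR g hg S hS hSf hg1 hg0
    · refine (h1 g hg).trans (mul_le_mul' (ENNReal.ofReal_le_ofReal ?_) le_rfl)
      exact mul_le_mul_of_nonneg_left hz hC₃.le
    · refine (h2 g hg).trans (mul_le_mul' (ENNReal.ofReal_le_ofReal ?_) le_rfl)
      rw [mul_assoc]
      exact mul_le_mul_of_nonneg_left hy hC₃.le

theorem fb_cyl (m : ℕ) {β K₀ : ℝ} (hβ0 : 0 ≤ β) (hβ1 : β ≤ 1) (hK : 0 ≤ K₀) {ν : Measure (E 1)}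
    (hν : LD β K₀ ν) : Fb (cyl m ν) := fun x ρ => cyl_ball m hβ0 hβ1 hK hν x ρ

theorem aa_low (m : ℕ) {β s A l : ℝ} (hβ0 : 0 ≤ β) (hs : 2 * ((m : ℝ) + 1) * s ≤ 1) (hs0 : 0 ≤ s)
    (hA : 0 < A) (hl : 0 < l) (hl1 : l ≤ 1) : A⁻¹ ≤ aa m β s A l := by
  unfold aa
  refine le_trans ?_ (le_max_right _ _)
  have h1 : 1 ≤ l ^ (-1 - β + 2 * s * ((m : ℝ) + 1 + β)) := by
    refine Real.one_le_rpow_of_pos_of_le_one_of_nonpos hl hl1 ?_
    have h2 : 2 * s ≤ 1 := by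
      have : (0 : ℝ) ≤ m := by positivity
      nlinarith
    nlinarith
  have h3 : 0 < A⁻¹ := by positivity
  nlinarith

/-- energies for `k = 1` -/
theorem ee (m : ℕ) (hLS : S_LS (m + 1)) (hBS : S_BS m) (hRX : S_RX m) (ψ θ : ℝ → ℝ)
    (hψ : Bump ψ) (hθ : Cut θ) (β K₀ p ε : ℝ) (hβ0 : 0 ≤ β) (hβ1 : β ≤ 1) (hK : 0 ≤ K₀)
    (hp : 2 ≤ p) (hs : 2 * ((m : ℝ) + 1) * (1 / 2 - 1 / p) ≤ 1) (hε : 0 < ε) :
    ∃ C : ℝ, 0 < C ∧ ∀ ν : Measure (E 1), LD β K₀ ν →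
      (∀ A l : ℝ, Adm θ A l → ∀ g : E (m + 1) → ℂ, BB g → En (pm m ψ θ A l) g (cyl m ν) ≤
        ENNReal.ofReal (C * (A ^ ε * aa m β (1 / 2 - 1 / p) A l)) *
          (∫⁻ x, ‖g x‖ₑ ^ (p / (p - 1)) ∂(cyl m ν)) ^ (2 * (p - 1) / p)) ∧
      ((∀ s, s ≤ 1 → θ s = 1) → ∀ A : ℝ, 4 ≤ A → ∀ g : E (m + 1) → ℂ, BB g →
        En (hi m ψ θ A) g (cyl m ν) ≤
        ENNReal.ofReal (C * (A ^ ε * aa m β (1 / 2 - 1 / p) A 1)) *
          (∫⁻ x, ‖g x‖ₑ ^ (p / (p - 1)) ∂(cyl m ν)) ^ (2 * (p - 1) / p)) := by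
  have hp0 : 0 < p := by linarith
  set s : ℝ := 1 / 2 - 1 / p with hsd
  have hs0 : 0 ≤ s := by
    rw [hsd, sub_nonneg, one_div_le_one_div hp0 two_pos]; exact hp
  have hexp : 1 + 2 * s = 2 * (p - 1) / p := by rw [hsd]; field_simp; ring
  obtain ⟨C₁, hC₁, h1⟩ := hRX ψ θ hψ hθ β K₀ s hβ0 hβ1 hK hs0 hs
  obtain ⟨C₂, hC₂, h2⟩ := hBS ψ θ hψ hθ β K₀ hβ0 hβ1 hK
  set C₃ : ℝ := C₁ + C₂ with hC₃
  have hC₃0 : 0 < C₃ := by positivity
  have hC13 : C₁ ≤ C₃ := by linarith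
  have hC23 : C₂ ≤ C₃ := by linarith
  obtain ⟨C, hC, hb⟩ := en_core (m + 1) hLS p ε hp hε C₃ hC₃0
  refine ⟨C, hC, fun ν hν => ⟨fun A l hAdm g hg => ?_, fun hθ1 A hA g hg => ?_⟩⟩
  · have hAdm' := hAdm
    obtain ⟨hA, hl, hl8, hAl, -⟩ := hAdm
    have hA0 : 0 < A := by linarith
    have hAl1 : 1 ≤ A * l := by nlinarith
    have hal := aa_low m (β := β) hβ0 hs hs0 hA0 hl (by linarith)
    have ha0 : 0 < aa m β s A l := lt_of_lt_of_le (by positivity) hal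
    have hy1 : (A * l) ^ (-(1 - β)) ≤ 1 :=
      Real.rpow_le_one_of_one_le_of_nonpos hAl1 (by linarith)
    refine hb (cyl m ν) (fb_cyl m hβ0 hβ1 hK hν) (pm m ψ θ A l)
      (pm_cont m hψ hθ A l) (pm_far m hψ θ hA0 l) A (aa m β s A l) ((A * l) ^ (-(1 - β))) (l / A)
      hA ha0 ?_ ?_ ?_ ?_ ?_ ?_ g hg
    · refine le_trans ?_ hal
      rw [div_eq_mul_inv]
      have : 0 < A⁻¹ := by positivity
      nlinarith
    · have h3 : 1 ≤ aa m β s A l * A ^ 2 := by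
        calc (1 : ℝ) ≤ A⁻¹ * A ^ 2 := by
              rw [show A⁻¹ * A ^ 2 = A by field_simp]; linarith
          _ ≤ _ := by gcongr
      linarith
    · intro hp2
      have hs00 : s = 0 := by rw [hsd, hp2]; norm_num
      unfold aa
      refine le_trans ?_ (le_max_left _ _)
      rw [hs00]
      norm_num
    · intro g hg S hS hSf hg1 hg0
      rw [← hexp]
      refine ((h1 ν hν g hg S hS hSf hg1 hg0).1 A l hAdm').trans ?_
      gcongr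
    · intro g hg
      refine (((h2 ν hν).1 A l hAdm' g hg).1).trans ?_
      gcongr
    · intro g hg
      refine (((h2 ν hν).1 A l hAdm' g hg).2).trans ?_
      gcongr
  · have hA0 : 0 < A := by linarith
    have hal := aa_low m (β := β) hβ0 hs hs0 hA0 one_pos le_rfl
    have ha0 : 0 < aa m β s A 1 := lt_of_lt_of_le (by positivity) hal
    have hy1 : A ^ (-(1 - β)) ≤ 1 :=
      Real.rpow_le_one_of_one_le_of_nonpos (by linarith) (by linarith)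
    refine hb (cyl m ν) (fb_cyl m hβ0 hβ1 hK hν) (hi m ψ θ A)
      (hi_cont m hψ hθ A) (hi_far m hψ θ hA0) A (aa m β s A 1) (A ^ (-(1 - β))) (1 / A)
      hA ha0 ?_ ?_ ?_ ?_ ?_ ?_ g hg
    · refine le_trans ?_ hal
      rw [one_div]
    · have h3 : 1 ≤ aa m β s A 1 * A ^ 2 := by
        calc (1 : ℝ) ≤ A⁻¹ * A ^ 2 := by
              rw [show A⁻¹ * A ^ 2 = A by field_simp]; linarith
          _ ≤ _ := by gcongr
      linarith
    · intro hp2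
      have hs00 : s = 0 := by rw [hsd, hp2]; norm_num
      unfold aa
      refine le_trans ?_ (le_max_left _ _)
      rw [hs00]
      norm_num
    · intro g hg S hS hSf hg1 hg0
      rw [← hexp]
      refine ((h1 ν hν g hg S hS hSf hg1 hg0).2 hθ1 A hA).trans ?_
      gcongr
    · intro g hg
      refine (((h2 ν hν).2 hθ1 A hA g hg).1).trans ?_
      rw [mul_one_div]
      gcongr
    · intro g hg
      refine (((h2 ν hν).2 hθ1 A hA g hg).2).trans ?_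
      gcongr

end Pool.Agent.Y248.FE
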