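import Mathlib
import Pool.Agent.Y248.FE.K
set_option autoImplicit false

/-! # Project FE: local bounds between two measures, `k ≥ 2` -/

namespace Pool.Agent.Y248.FE

open MeasureTheory Set Metric Complex Filter
open scoped ENNReal RealInnerProductSpace Topology FourierTransform
open Pool.Agent.H789R2.FR (E sg T)
open Pool.Agent.H438R2.RZ (Bump)
open Pool.Agent.Y248.BA (mu Kr Tp ball_vol mu_cont mu_far)
open Pool.Agent.Y248.FB Pool.Agent.Y248.FC Pool.Agent.Y248.FD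
open Pool.Agent.Y93.FD (shell)

theorem fb_dimC {n : ℕ} {α D : ℝ} {μ : Measure (E n)} (h : DimC α D μ) : Fb μ := fun x r =>
  (measure_mono (closedBall_subset_closedBall (le_max_left r 1))).trans_lt
    ((h x _ (le_max_right r 1)).trans_lt ENNReal.ofReal_lt_top)

theorem Fm_smul {n : ℕ} {c : ℝ} (hc : 0 ≤ c) (g : E n → ℂ) (μ : Measure (E n)) (ξ : E n) :
    Fm g (ENNReal.ofReal c • μ) ξ = (c : ℂ) * Fm g μ ξ := by
  unfold Fm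
  rw [integral_smul_measure, ENNReal.toReal_ofReal hc, Complex.real_smul]

/-- the energy estimate for measures which are not normalised -/
theorem ge_one (n : ℕ) (hGE : S_GE n) (ψ : ℝ → ℝ) (hψ : Bump ψ) (γ K D p ε : ℝ) (hγ0 : 0 ≤ γ)
    (hγ1 : γ ≤ 1) (hK : 0 ≤ K) (hD : 0 < D) (hp : 2 ≤ p) (hε : 0 < ε) :
    ∃ C : ℝ, 0 < C ∧ ∀ μ : Measure (E n), DimC n D μ → Gain γ K μ → ∀ A : ℝ, 4 ≤ A →
    ∀ g : E n → ℂ, BB g → En (mu ψ A 1) g μ ≤ ENNReal.ofReal (C * A ^ (-th n γ p + ε)) *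
      (∫⁻ x, ‖g x‖ₑ ^ (p / (p - 1)) ∂μ) ^ (2 * (p - 1) / p) := by
  have hp0 : 0 < p := by linarith
  have hp1 : 0 < p - 1 := by linarith
  obtain ⟨C, hC, hb⟩ := hGE ψ hψ γ (D⁻¹ * K) p ε hγ0 hγ1 (by positivity) hp hε
  refine ⟨D ^ 2 * (C * (D⁻¹) ^ (2 * (p - 1) / p)), by positivity, fun μ hμ hG A hA g hg => ?_⟩
  have hD1 : 0 ≤ D⁻¹ := by positivity
  have h1 := hb (ENNReal.ofReal D⁻¹ • μ) (Dim.of_smul hD hμ) (hG.smul hD1 hK) A hA g hg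
  have h2 : ∀ ξ, ‖Hd ψ A (fun _ => 1) g (ENNReal.ofReal D⁻¹ • μ) ξ‖ₑ ^ (2 : ℝ) =
      ENNReal.ofReal (D⁻¹ ^ 2) * ‖mu ψ A 1 ξ * Fm g μ ξ‖ₑ ^ (2 : ℝ) := by
    intro ξ
    have e1 : Hd ψ A (fun _ => 1) g (ENNReal.ofReal D⁻¹ • μ) ξ =
        ((D⁻¹ : ℝ) : ℂ) * (mu ψ A 1 ξ * Fm g μ ξ) := by
      have e2 : Hd ψ A (fun _ => 1) g (ENNReal.ofReal D⁻¹ • μ) ξ =
          mu ψ A 1 ξ * Fm g (ENNReal.ofReal D⁻¹ • μ) ξ := by
        unfold Hd Fm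
        rw [← integral_const_mul]
        congr 1; funext x; ring
      rw [e2, Fm_smul hD1]
      ring
    rw [e1, enorm_mul, ENNReal.mul_rpow_of_nonneg _ _ (by norm_num), ← ofReal_norm ((D⁻¹ : ℝ) : ℂ),
      Complex.norm_real, Real.norm_of_nonneg hD1, ENNReal.ofReal_rpow_of_nonneg hD1 (by norm_num)]
    congr 2
    exact Real.rpow_two _
  simp only [h2] at h1
  rw [lintegral_const_mul' _ _ ENNReal.ofReal_ne_top, lintegral_smul_measure, smul_eq_mul,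
    ENNReal.mul_rpow_of_nonneg _ _ (by positivity),
    ENNReal.ofReal_rpow_of_nonneg hD1 (by positivity)] at h1
  have h3 := mul_le_mul' (le_refl (ENNReal.ofReal (D ^ 2))) h1
  rw [← mul_assoc, ← ENNReal.ofReal_mul (by positivity)] at h3
  have e3 : D ^ 2 * D⁻¹ ^ 2 = 1 := by field_simp
  rw [e3, ENNReal.ofReal_one, one_mul] at h3
  unfold En
  refine h3.trans (le_of_eq ?_)
  rw [← mul_assoc, ← mul_assoc, ← ENNReal.ofReal_mul (by positivity),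
    ← ENNReal.ofReal_mul (by positivity)]
  congr 2
  ring

theorem mu_even' {n : ℕ} (ψ : ℝ → ℝ) (A R : ℝ) (ξ : E n) : mu ψ A R (-ξ) = mu ψ A R ξ := by
  unfold mu; rw [norm_neg]

/-- local bounds, `k ≥ 2` -/
theorem k1 (n : ℕ) (hGE : S_GE n) (ψ : ℝ → ℝ) (hψ : Bump ψ) (γ₁ γ₂ K D α p ε : ℝ)
    (h20 : 0 ≤ γ₂) (h10 : 0 ≤ γ₁) (h11 : γ₁ ≤ 1) (h21 : γ₂ ≤ 1) (hK : 0 < K) (hD : 0 < D)
    (hα : 0 ≤ α) (hp : 2 ≤ p) (hε : 0 < ε) : ∃ C : ℝ, 0 < C ∧ ∀ μ₁ μ₂ : Measure (E n),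
      DimC α D μ₁ → Gain γ₁ K μ₁ → DimC n D μ₂ → Gain γ₂ K μ₂ → ∀ A : ℝ, 4 ≤ A →
      ∀ (u : E n) (ρ : ℝ), 1 ≤ ρ → ∀ f : E n → ℂ, BB f →
      (∀ x, x ∉ closedBall u (2 * ρ) → f x = 0) →
      ∫⁻ x, ‖Tm (mu ψ A 1) f μ₁ x‖ₑ ^ p ∂μ₂ ≤
        ENNReal.ofReal (C * (A ^ (-th n γ₂ p + ε) * A ^ (-γ₁)) ^ (p / 2) *
          (ρ ^ α) ^ (p / 2 - 1)) * ∫⁻ x, ‖f x‖ₑ ^ p ∂μ₁ := by
  have hp0 : 0 < p := by linarith
  obtain ⟨CE, hCE, hE⟩ := ge_one n hGE ψ hψ γ₂ K D p ε h20 h21 hK.le hD hp hε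
  refine ⟨(CE * (K * 2)) ^ (p / 2) * (D * 2 ^ α) ^ (p / 2 - 1), by positivity,
    fun μ₁ μ₂ hd1 hg1 hd2 hg2 A hA u ρ hρ f hf hfs => ?_⟩
  have hA0 : 0 < A := by linarith
  have hgain : ∫⁻ ξ in {ξ | mu ψ A 1 ξ ≠ 0}, ‖Fm f μ₁ ξ‖ₑ ^ (2 : ℝ) ≤
      ENNReal.ofReal ((K * 2) * A ^ (-γ₁)) * ∫⁻ x, ‖f x‖ₑ ^ (2 : ℝ) ∂μ₁ := by
    refine (lintegral_mono_set (fun ξ hξ => shell hψ hA ξ hξ)).trans ?_
    refine (hg1 (A / 2) (by linarith) f hf).trans ?_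
    refine mul_le_mul' (ENNReal.ofReal_le_ofReal ?_) le_rfl
    rw [mul_assoc]
    refine mul_le_mul_of_nonneg_left ?_ hK.le
    rw [Real.div_rpow hA0.le (by norm_num), div_eq_mul_inv, ← Real.rpow_neg (by norm_num),
      neg_neg, mul_comm]
    refine mul_le_mul_of_nonneg_right ?_ (by positivity)
    calc (2 : ℝ) ^ γ₁ ≤ 2 ^ (1 : ℝ) :=
          Real.rpow_le_rpow_of_exponent_le (by norm_num) h11
      _ = 2 := Real.rpow_one 2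
  have hW : μ₁ (closedBall u (2 * ρ)) ≤ ENNReal.ofReal (D * (2 * ρ) ^ α) :=
    hd1 u (2 * ρ) (by linarith)
  have hmain := loc_mm (mu_cont hψ A 1) (mu_even' ψ A 1)
    (fun ξ hξ => mu_far hψ hA0 one_pos ξ (by linarith)) (fb_dimC hd1) (fb_dimC hd2) hp
    (c := CE * A ^ (-th n γ₂ p + ε)) (by positivity) (by positivity) (by positivity)
    (hE μ₂ hd2 hg2 A hA) hf hgain isClosed_closedBall.measurableSet hfs hW
  refine hmain.trans (le_of_eq ?_)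
  congr 2
  have hρ0 : 0 < ρ := by linarith
  have e1 : (CE * A ^ (-th n γ₂ p + ε) * (K * 2 * A ^ (-γ₁))) ^ (p / 2) =
      (CE * (K * 2)) ^ (p / 2) * (A ^ (-th n γ₂ p + ε) * A ^ (-γ₁)) ^ (p / 2) := by
    rw [← Real.mul_rpow (by positivity) (by positivity)]
    congr 1
    ring
  have e2 : (D * (2 * ρ) ^ α) ^ (p / 2 - 1) = (D * 2 ^ α) ^ (p / 2 - 1) * (ρ ^ α) ^ (p / 2 - 1) := by
    rw [← Real.mul_rpow (by positivity) (by positivity), Real.mul_rpow (by norm_num) hρ0.le]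
    congr 1
    ring
  rw [e1, e2]
  ring

end Pool.Agent.Y248.FE
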