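import Mathlib
import Pool.Agent.Y248.FE.K
set_option autoImplicit false

/-! # Project FE: local bounds between two measures, `k = 1` -/

namespace Pool.Agent.Y248.FE

open MeasureTheory Set Metric Complex Filter
open scoped ENNReal RealInnerProductSpace Topology FourierTransform
open Pool.Agent.H789R2.FR (E sg T)
open Pool.Agent.H438R2.RZ (Bump)
open Pool.Agent.Y248.BA (mu Kr Tp ball_vol)
open Pool.Agent.Y248.FB Pool.Agent.Y248.FC Pool.Agent.Y248.FD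
open Pool.Agent.Y93.FD (Mq_pm Mq_hi box_cyl cut_bdd Sl Sg)

theorem W_eq (m : ℕ) {V l ρ β : ℝ} (hV : 0 ≤ V) (hl : 0 < l) (hρ : 0 < ρ) (e : ℝ) :
    (V * ((2 * ρ) ^ m * (l * (2 * ρ)) ^ β)) ^ e =
      (V * (2 ^ m * 2 ^ β)) ^ e * (ρ ^ m * (l * ρ) ^ β) ^ e := by
  rw [← Real.mul_rpow (by positivity) (by positivity)]
  congr 1
  rw [show l * (2 * ρ) = 2 * (l * ρ) by ring, Real.mul_rpow (by norm_num) (by positivity), mul_pow]
  ring

theorem cG_eq {a b X Y e : ℝ} (ha : 0 ≤ a) (hb : 0 ≤ b) (hX : 0 ≤ X) (hY : 0 ≤ Y) :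
    ((a * X) * (b * Y)) ^ e = (a * b) ^ e * (X * Y) ^ e := by
  rw [← Real.mul_rpow (by positivity) (by positivity)]
  congr 1
  ring

/-- local bounds, `k = 1` -/
theorem k2 (m : ℕ) (hGA : S_GA m) (hLS : S_LS (m + 1)) (hBS : S_BS m) (hRX : S_RX m)
    (ψ θ : ℝ → ℝ) (hψ : Bump ψ) (hθ : Cut θ) (β₁ β₂ K₀ p ε : ℝ) (h10 : 0 ≤ β₁) (h11 : β₁ ≤ 1)
    (h20 : 0 ≤ β₂) (h21 : β₂ ≤ 1) (hK : 0 ≤ K₀) (hp : 2 ≤ p)
    (hs : 2 * ((m : ℝ) + 1) * (1 / 2 - 1 / p) ≤ 1) (hε : 0 < ε) :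
    ∃ C : ℝ, 0 < C ∧ ∀ ν₁ ν₂ : Measure (E 1), LD β₁ K₀ ν₁ → LD β₂ K₀ ν₂ →
      (∀ A l : ℝ, Adm θ A l → ∀ (u : E (m + 1)) (ρ : ℝ), 0 < ρ → 1 ≤ l * ρ →
        ∀ f : E (m + 1) → ℂ, BB f → (∀ x, x ∉ Box m l u (2 * ρ) → f x = 0) →
        ∫⁻ x, ‖Tm (pm m ψ θ A l) f (cyl m ν₁) x‖ₑ ^ p ∂(cyl m ν₂) ≤
          ENNReal.ofReal (C * (A ^ ε * aa m β₂ (1 / 2 - 1 / p) A l * (A * l) ^ (-(1 - β₁))) ^
            (p / 2) * (ρ ^ m * (l * ρ) ^ β₁) ^ (p / 2 - 1)) *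
            ∫⁻ x, ‖f x‖ₑ ^ p ∂(cyl m ν₁)) ∧
      ((∀ s, s ≤ 1 → θ s = 1) → ∀ A : ℝ, 4 ≤ A → ∀ (u : E (m + 1)) (ρ : ℝ), 1 ≤ ρ →
        ∀ f : E (m + 1) → ℂ, BB f → (∀ x, x ∉ Box m 1 u (2 * ρ) → f x = 0) →
        ∫⁻ x, ‖Tm (hi m ψ θ A) f (cyl m ν₁) x‖ₑ ^ p ∂(cyl m ν₂) ≤
          ENNReal.ofReal (C * (A ^ ε * aa m β₂ (1 / 2 - 1 / p) A 1 * A ^ (-(1 - β₁))) ^
            (p / 2) * (ρ ^ m * ρ ^ β₁) ^ (p / 2 - 1)) *
            ∫⁻ x, ‖f x‖ₑ ^ p ∂(cyl m ν₁)) := by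
  have hp0 : 0 < p := by linarith
  set s : ℝ := 1 / 2 - 1 / p with hsd
  have hs0 : 0 ≤ s := by
    rw [hsd, sub_nonneg, one_div_le_one_div hp0 two_pos]; exact hp
  obtain ⟨CE, hCE, hE⟩ := ee m hLS hBS hRX ψ θ hψ hθ β₂ K₀ p ε h20 h21 hK hp hs hε
  obtain ⟨C1, hC1, hga⟩ := hGA
  obtain ⟨V, hV, hVb⟩ := ball_vol m
  obtain ⟨M, hM, hMb⟩ := cut_bdd hθ
  have hK1 : 0 < K₀ + 1 := by linarith
  refine ⟨(CE * (2 * (C1 * (K₀ + 1)))) ^ (p / 2) *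
    ((V * (K₀ + 1)) * (2 ^ m * 2 ^ β₁)) ^ (p / 2 - 1), by positivity,
    fun ν₁ ν₂ hν₁ hν₂ => ⟨fun A l hAdm u ρ hρ hlρ f hf hfs => ?_,
    fun hθ1 A hA u ρ hρ f hf hfs => ?_⟩⟩
  · have hMq := Mq_pm m hψ hθ hM hMb hAdm
    have hAdm' := hAdm
    obtain ⟨hA, hl, hl8, hAl, -⟩ := hAdm
    have hA0 : 0 < A := by linarith
    have ha0 : 0 < aa m β₂ s A l :=
      lt_of_lt_of_le (by positivity) (aa_low m h20 hs hs0 hA0 hl (by linarith))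
    have hgain : ∫⁻ ξ in {ξ | pm m ψ θ A l ξ ≠ 0}, ‖Fm f (cyl m ν₁) ξ‖ₑ ^ (2 : ℝ) ≤
          ENNReal.ofReal ((2 * (C1 * (K₀ + 1))) * (A * l) ^ (-(1 - β₁))) *
            ∫⁻ x, ‖f x‖ₑ ^ (2 : ℝ) ∂(cyl m ν₁) := by
      refine (lintegral_mono_set (fun ξ hξ => hMq.sh ξ hξ)).trans ?_
      refine ((hga β₁ K₀ h10 h11 hK ν₁ hν₁ (A / 2) (by linarith) f hf).1 l hl
        (by linarith)).trans ?_
      refine mul_le_mul' (ENNReal.ofReal_le_ofReal ?_) le_rfl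
      have h1 : (min (1 / (A / 2 * l)) l) ^ (1 - β₁) ≤ 2 * (A * l) ^ (-(1 - β₁)) := by
        have h2 : (min (1 / (A / 2 * l)) l) ≤ 2 * (A * l)⁻¹ := by
          refine (min_le_left _ _).trans (le_of_eq ?_)
          field_simp
        refine (Real.rpow_le_rpow (by positivity) h2 (by linarith)).trans ?_
        rw [Real.mul_rpow (by norm_num) (by positivity), Real.inv_rpow (by positivity),
          ← Real.rpow_neg (by positivity)]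
        refine mul_le_mul_of_nonneg_right ?_ (by positivity)
        calc (2 : ℝ) ^ (1 - β₁) ≤ 2 ^ (1 : ℝ) :=
              Real.rpow_le_rpow_of_exponent_le (by norm_num) (by linarith)
          _ = 2 := Real.rpow_one 2
      calc C1 * K₀ * (min (1 / (A / 2 * l)) l) ^ (1 - β₁)
          ≤ C1 * (K₀ + 1) * (2 * (A * l) ^ (-(1 - β₁))) := by
            gcongr
            linarith
        _ = _ := by ring
    have hW := box_cyl hV hVb hK hν₁ (l := l) (ρ := 2 * ρ) (by linarith) (by nlinarith) u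
    have hmain := loc_mm (pm_cont m hψ hθ A l) (pm_even m ψ θ A l) (pm_far m hψ θ hA0 l)
      (fb_cyl m h10 h11 hK hν₁) (fb_cyl m h20 h21 hK hν₂) hp
      (c := CE * (A ^ ε * aa m β₂ s A l)) (by positivity) (by positivity) (by positivity)
      ((hE ν₂ hν₂).1 A l hAdm') hf hgain (Box_meas m l u (2 * ρ)) hfs hW
    refine hmain.trans (le_of_eq ?_)
    rw [W_eq m (by positivity) hl hρ, cG_eq (by positivity) (by positivity) (by positivity)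
      (by positivity)]
    congr 2
    ring
  · have hMq := Mq_hi m hψ hθ hθ1 hM hMb hA
    have hA0 : 0 < A := by linarith
    have hρ0 : 0 < ρ := by linarith
    have ha0 : 0 < aa m β₂ s A 1 :=
      lt_of_lt_of_le (by positivity) (aa_low m h20 hs hs0 hA0 one_pos le_rfl)
    have hgain : ∫⁻ ξ in {ξ | hi m ψ θ A ξ ≠ 0}, ‖Fm f (cyl m ν₁) ξ‖ₑ ^ (2 : ℝ) ≤
          ENNReal.ofReal ((2 * (C1 * (K₀ + 1))) * A ^ (-(1 - β₁))) *
            ∫⁻ x, ‖f x‖ₑ ^ (2 : ℝ) ∂(cyl m ν₁) := by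
      refine (lintegral_mono_set (fun ξ hξ => hMq.sh ξ hξ)).trans ?_
      refine ((hga β₁ K₀ h10 h11 hK ν₁ hν₁ (A / 2) (by linarith) f hf).2).trans ?_
      refine mul_le_mul' (ENNReal.ofReal_le_ofReal ?_) le_rfl
      have h1 : (A / 2) ^ (-(1 - β₁)) ≤ 2 * A ^ (-(1 - β₁)) := by
        rw [Real.div_rpow hA0.le (by norm_num), div_eq_mul_inv, ← Real.rpow_neg (by norm_num),
          neg_neg, mul_comm]
        refine mul_le_mul_of_nonneg_right ?_ (by positivity)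
        calc (2 : ℝ) ^ (1 - β₁) ≤ 2 ^ (1 : ℝ) :=
              Real.rpow_le_rpow_of_exponent_le (by norm_num) (by linarith)
          _ = 2 := Real.rpow_one 2
      calc C1 * K₀ * (A / 2) ^ (-(1 - β₁))
          ≤ C1 * (K₀ + 1) * (2 * A ^ (-(1 - β₁))) := by
            gcongr
            linarith
        _ = _ := by ring
    have hW := box_cyl hV hVb hK hν₁ (l := 1) (ρ := 2 * ρ) (by linarith) (by nlinarith) u
    have hmain := loc_mm (hi_cont m hψ hθ A) (hi_even m ψ θ A) (hi_far m hψ θ hA0)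
      (fb_cyl m h10 h11 hK hν₁) (fb_cyl m h20 h21 hK hν₂) hp
      (c := CE * (A ^ ε * aa m β₂ s A 1)) (by positivity) (by positivity) (by positivity)
      ((hE ν₂ hν₂).2 hθ1 A hA) hf hgain (Box_meas m 1 u (2 * ρ)) hfs hW
    refine hmain.trans (le_of_eq ?_)
    rw [W_eq m (by positivity) one_pos hρ0, cG_eq (by positivity) (by positivity) (by positivity)
      (by positivity), one_mul]
    congr 2
    ring

end Pool.Agent.Y248.FE
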