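import Mathlib
import Pool.Agent.Y248.FE.K1
import Pool.Agent.Y248.FE.K2
import Pool.Agent.Y248.FE.Exp
import Pool.Agent.Y248.FD.Loc
set_option autoImplicit false

/-! # Project FE: assembly of the pieces -/

namespace Pool.Agent.Y248.FE

open MeasureTheory Set Metric Complex Filter
open scoped ENNReal RealInnerProductSpace Topology FourierTransform
open Pool.Agent.H789R2.FR (E sg T)
open Pool.Agent.H438R2.RZ (Bump)
open Pool.Agent.Y248.BA (mu Kr Tp mu_cont mu_far mu_int Kr_dec)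
open Pool.Agent.Y248.FB Pool.Agent.Y248.FC Pool.Agent.Y248.FD
open Pool.Agent.Y515.FB (ind_int)

/-- the bound of the pieces for a class `X` of pairs of measures -/
def P2 (n : ℕ) (X : Measure (E n) → Measure (E n) → Prop) (p σ : ℝ) : Prop :=
  ∀ ψ : ℝ → ℝ, Bump ψ → ∃ C : ℝ, 0 < C ∧ ∀ μ₁ μ₂ : Measure (E n), X μ₁ μ₂ → ∀ A : ℝ, 1 ≤ A →
  ∀ f : E n → ℂ, BB f →
    ∫⁻ x, ‖Tm (mu ψ A 1) f μ₁ x‖ₑ ^ p ∂μ₂ ≤
      ENNReal.ofReal (C * A ^ (p * σ)) * ∫⁻ x, ‖f x‖ₑ ^ p ∂μ₁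

/-- from `A ≥ 64` to `A ≥ 1` -/
theorem p2_of_large (n : ℕ) (hCM : S_CM n) (X : Measure (E n) → Measure (E n) → Prop)
    (D p σ : ℝ) (hD : 0 < D) (hp : 1 ≤ p)
    (hX : ∀ μ₁ μ₂, X μ₁ μ₂ → DimC n D μ₁ ∧ DimC n D μ₂)
    (H : ∀ ψ : ℝ → ℝ, Bump ψ → ∃ C : ℝ, 0 < C ∧ ∀ μ₁ μ₂ : Measure (E n), X μ₁ μ₂ → ∀ A : ℝ,
      64 ≤ A → ∀ f : E n → ℂ, BB f →
      ∫⁻ x, ‖Tm (mu ψ A 1) f μ₁ x‖ₑ ^ p ∂μ₂ ≤
        ENNReal.ofReal (C * A ^ (p * σ)) * ∫⁻ x, ‖f x‖ₑ ^ p ∂μ₁) : P2 n X p σ := by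
  intro ψ hψ
  obtain ⟨C1, hC1, h1⟩ := H ψ hψ
  obtain ⟨C3, hC3, h3⟩ := hCM ψ hψ p D hp hD
  set c : ℝ := min 1 ((64 : ℝ) ^ (p * σ)) with hc
  have hc0 : 0 < c := lt_min one_pos (Real.rpow_pos_of_pos (by norm_num) _)
  refine ⟨C3 / c + C1, by positivity, fun μ₁ μ₂ hμ A hA f hf => ?_⟩
  have hA0 : 0 < A := by linarith
  have h6 : 0 < A ^ (p * σ) := Real.rpow_pos_of_pos hA0 _
  rcases le_total A 64 with hA4 | hA4
  · refine (h3 μ₁ μ₂ (hX _ _ hμ).1 (hX _ _ hμ).2 A hA hA4 f hf).trans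
      (mul_le_mul' (ENNReal.ofReal_le_ofReal ?_) le_rfl)
    have h4 : c ≤ A ^ (p * σ) := by
      rcases le_total 0 (p * σ) with h | h
      · exact (min_le_left _ _).trans (Real.one_le_rpow hA h)
      · exact (min_le_right _ _).trans (Real.rpow_le_rpow_of_nonpos hA0 hA4 h)
    have h5 : C3 ≤ C3 / c * A ^ (p * σ) := by
      rw [div_mul_eq_mul_div, le_div_iff₀ hc0]
      exact mul_le_mul_of_nonneg_left h4 (by positivity)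
    refine h5.trans (mul_le_mul_of_nonneg_right ?_ h6.le)
    linarith
  · refine (h1 μ₁ μ₂ hμ A hA4 f hf).trans (mul_le_mul' (ENNReal.ofReal_le_ofReal ?_) le_rfl)
    refine mul_le_mul_of_nonneg_right ?_ h6.le
    have : 0 < C3 / c := by positivity
    linarith

/-- globalisation with a power bound -/
theorem gm_pow (n : ℕ) (hGM : S_GM n) (p ε σ D C₁ : ℝ) (hp : 1 ≤ p) (hε : 0 < ε) (hD : 0 < D)
    (hC₁ : 0 < C₁) : ∃ N : ℕ, ∀ C₀ : ℝ, 0 < C₀ → ∃ C : ℝ, 0 < C ∧ ∀ μ₁ μ₂ : Measure (E n),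
    DimC n D μ₁ → DimC n D μ₂ → ∀ A : ℝ, 1 ≤ A →
    ∀ w : Seminorm ℝ (E n), Continuous w → (∀ x, ‖x‖ ≤ 2 * w x) →
    ∀ q : E n → ℂ, Integrable q → (∀ x, (w x) ^ N * ‖𝓕 q x‖ ≤ C₀ * A ^ N) →
    (∀ (u : E n) (g : E n → ℂ), BB g → (∀ x, 2 * A ^ (1 + ε) < w (x - u) → g x = 0) →
      ∫⁻ x, ‖Tm q g μ₁ x‖ₑ ^ p ∂μ₂ ≤
        ENNReal.ofReal (C₁ * A ^ (p * σ)) * ∫⁻ x, ‖g x‖ₑ ^ p ∂μ₁) →
    ∀ f : E n → ℂ, BB f → ∫⁻ x, ‖Tm q f μ₁ x‖ₑ ^ p ∂μ₂ ≤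
      ENNReal.ofReal (C * A ^ (p * σ)) * ∫⁻ x, ‖f x‖ₑ ^ p ∂μ₁ := by
  obtain ⟨N, hN⟩ := hGM p ε |p * σ| D hp hε hD
  refine ⟨N, fun C₀ hC₀ => ?_⟩
  obtain ⟨C, hC, hb⟩ := hN C₀ hC₀
  refine ⟨2 ^ (p - 1) * (2 ^ n * C₁ + C), by positivity,
    fun μ₁ μ₂ h1 h2 A hA w hw hw2 q hq hqd hloc f hf => ?_⟩
  have hA0 : 0 < A := by linarith
  refine (hb μ₁ μ₂ h1 h2 A hA w hw hw2 q hq hqd (C₁ * A ^ (p * σ)) (by positivity)
    (fun u g hg hg2 => (setLIntegral_le_lintegral _ _).trans (hloc u g hg hg2)) f hf).trans ?_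
  refine mul_le_mul' (ENNReal.ofReal_le_ofReal ?_) le_rfl
  have h6 : A ^ (-|p * σ|) ≤ A ^ (p * σ) :=
    Real.rpow_le_rpow_of_exponent_le hA (neg_abs_le _)
  calc 2 ^ (p - 1) * (2 ^ n * (C₁ * A ^ (p * σ)) + C * A ^ (-|p * σ|))
      ≤ 2 ^ (p - 1) * (2 ^ n * (C₁ * A ^ (p * σ)) + C * A ^ (p * σ)) := by gcongr
    _ = _ := by ring

/-- the pieces, `k ≥ 2` -/
theorem p2_two (n : ℕ) (hGE : S_GE n) (hGM : S_GM n) (hCM : S_CM n)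
    (X : Measure (E n) → Measure (E n) → Prop) (γ₁ γ₂ K D α p σ : ℝ)
    (h10 : 0 ≤ γ₁) (h11 : γ₁ ≤ 1) (h20 : 0 ≤ γ₂) (h21 : γ₂ ≤ 1) (hK : 0 < K) (hD : 0 < D)
    (hα : 0 ≤ α) (hp : 2 ≤ p)
    (hX : ∀ μ₁ μ₂, X μ₁ μ₂ → DimC n D μ₁ ∧ DimC α D μ₁ ∧ Gain γ₁ K μ₁ ∧ DimC n D μ₂ ∧
      Gain γ₂ K μ₂) (h : (-th n γ₂ p - γ₁) * (p / 2) + α * (p / 2 - 1) < p * σ) :
    P2 n X p σ := by
  obtain ⟨ε, hε, he⟩ := exists_eps (g := fun ε => (-th n γ₂ p + ε - γ₁) * (p / 2) +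
    (1 + ε) * α * (p / 2 - 1)) (by fun_prop) (a := p * σ) (by
      simp only [add_zero, one_mul]; exact h)
  refine p2_of_large n hCM X D p σ hD (by linarith) (fun μ₁ μ₂ hμ =>
    ⟨(hX _ _ hμ).1, (hX _ _ hμ).2.2.2.1⟩) fun ψ hψ => ?_
  obtain ⟨C₁, hC₁, h1⟩ := k1 n hGE ψ hψ γ₁ γ₂ K D α p ε h20 h10 h11 h21 hK hD hα hp hε
  obtain ⟨N, hN⟩ := gm_pow n hGM p ε σ D C₁ (by linarith) hε hD hC₁
  obtain ⟨C₀, hC₀, hdec⟩ := Kr_dec n hψ N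
  obtain ⟨C, hC, hb⟩ := hN C₀ hC₀
  refine ⟨C, hC, fun μ₁ μ₂ hμ A hA f hf => ?_⟩
  obtain ⟨g1, g2, g3, g4, g5⟩ := hX _ _ hμ
  have hA0 : 0 < A := by linarith
  refine hb μ₁ μ₂ g1 g4 A (by linarith) (normSeminorm ℝ (E n)) continuous_norm
    (fun x => by
      rw [coe_normSeminorm]
      have := norm_nonneg x
      linarith) (mu ψ A 1)
    (mu_int hψ hA0 one_pos (by norm_num)) (fun x => ?_) (fun u g hg hg2 => ?_) f hf
  · rw [coe_normSeminorm]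
    exact hdec A 1 (by linarith) le_rfl (by norm_num) x
  · refine (h1 μ₁ μ₂ g2 g3 g4 g5 A (by linarith) u (A ^ (1 + ε))
      (Real.one_le_rpow (by linarith) (by linarith)) g hg (fun x hx => hg2 x ?_)).trans ?_
    · rw [coe_normSeminorm]
      rw [mem_closedBall, dist_eq_norm, not_le] at hx
      exact hx
    · refine mul_le_mul' (ENNReal.ofReal_le_ofReal ?_) le_rfl
      rw [mul_assoc]
      refine mul_le_mul_of_nonneg_left ?_ hC₁.le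
      rw [← Real.rpow_add hA0, ← Real.rpow_mul hA0.le, ← Real.rpow_mul hA0.le,
        ← Real.rpow_mul hA0.le, ← Real.rpow_add hA0]
      refine Real.rpow_le_rpow_of_exponent_le (by linarith) ?_
      refine le_trans (le_of_eq ?_) he
      ring

/-! ### `k = 1` -/

/-- the norm of the boxes -/
noncomputable def bw (m : ℕ) (l : ℝ) : Seminorm ℝ (E (m + 1)) :=
  ((normSeminorm ℝ (E m)).comp ((LinearMap.fst ℝ (E m) (E 1)).comp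
    (EuclideanSpace.finAddEquivProd (𝕜 := ℝ) (n := m) (m := 1)).toLinearEquiv.toLinearMap)) ⊔
  ((normSeminorm ℝ (E 1)).comp (l⁻¹ • ((LinearMap.snd ℝ (E m) (E 1)).comp
    (EuclideanSpace.finAddEquivProd (𝕜 := ℝ) (n := m) (m := 1)).toLinearEquiv.toLinearMap)))

theorem bw_apply (m : ℕ) {l : ℝ} (hl : 0 < l) (x : E (m + 1)) :
    bw m l x = max ‖hd m x‖ (‖pr m x‖ / l) := by
  unfold bw
  rw [Seminorm.sup_apply, Seminorm.comp_apply, Seminorm.comp_apply, coe_normSeminorm,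
    coe_normSeminorm]
  congr 1
  rw [LinearMap.smul_apply, norm_smul, norm_inv, Real.norm_of_nonneg hl.le, div_eq_inv_mul]
  rfl

theorem bw_cont (m : ℕ) {l : ℝ} (hl : 0 < l) : Continuous (bw m l) := by
  have e : (bw m l : E (m + 1) → ℝ) = fun x => max ‖hd m x‖ (‖pr m x‖ / l) := by
    funext x; exact bw_apply m hl x
  rw [e]
  exact (hd_cont m).norm.max ((pr_cont m).norm.div_const _)

theorem bw_norm (m : ℕ) {l : ℝ} (hl : 0 < l) (hl1 : l ≤ 1) (x : E (m + 1)) :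
    ‖x‖ ≤ 2 * bw m l x := by
  rw [bw_apply m hl]
  set M : ℝ := max ‖hd m x‖ (‖pr m x‖ / l) with hM
  have h1 : ‖hd m x‖ ≤ M := le_max_left _ _
  have h2 : ‖pr m x‖ / l ≤ M := le_max_right _ _
  have h3 : ‖pr m x‖ ≤ M := by
    rw [div_le_iff₀ hl] at h2
    have h0 : 0 ≤ M := (norm_nonneg _).trans h1
    nlinarith
  have h4 := norm_split m x
  have h5 : ‖x‖ ^ 2 ≤ (2 * M) ^ 2 := by
    rw [h4]
    nlinarith [norm_nonneg (hd m x), norm_nonneg (pr m x)]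
  have h0 : 0 ≤ M := (norm_nonneg _).trans h1
  exact le_of_sq_le_sq h5 (by positivity)

theorem bw_box (m : ℕ) {l : ℝ} (hl : 0 < l) (u x : E (m + 1)) (ρ : ℝ) (h : x ∉ Box m l u ρ) :
    ρ < bw m l (x - u) := by
  rw [bw_apply m hl, hd_sub, pr_sub]
  by_contra hc
  rw [not_lt] at hc
  refine h ⟨(le_max_left _ _).trans hc, ?_⟩
  have h2 := (le_max_right _ _).trans hc
  rw [div_le_iff₀ hl] at h2
  linarith

theorem bw_le (m : ℕ) {l : ℝ} (hl : 0 < l) (x : E (m + 1)) :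
    bw m l x ≤ ‖hd m x‖ + ‖pr m x‖ / l := by
  rw [bw_apply m hl]
  refine max_le ?_ ?_
  · have : 0 ≤ ‖pr m x‖ / l := by positivity
    linarith
  · have := norm_nonneg (hd m x)
    linarith

end Pool.Agent.Y248.FE
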