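import Mathlib
import Pool.Agent.Y248.FE.Asm
import Pool.Agent.Y248.FD.Sum
set_option autoImplicit false

/-! # Project FE: the pieces, `k = 1` -/

namespace Pool.Agent.Y248.FE

open MeasureTheory Set Metric Complex Filter
open scoped ENNReal RealInnerProductSpace Topology FourierTransform
open Pool.Agent.H789R2.FR (E sg T)
open Pool.Agent.H438R2.RZ (Bump)
open Pool.Agent.Y248.BA (mu Kr Tp mu_cont mu_far mu_int Kr_dec)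
open Pool.Agent.Y248.FB Pool.Agent.Y248.FC Pool.Agent.Y248.FD
open Pool.Agent.Y515.FB (ind_int)

/-- the class of pairs of cylinder measures -/
def Xp (m k : ℕ) (d₁ d₂ K₀ : ℝ) (μ₁ μ₂ : Measure (E (m + k))) : Prop := ∃ ν₁ ν₂ : Measure (E k),
  (∀ (t : E k) (r : ℝ), 1 ≤ r → ν₁ (closedBall t r) ≤ ENNReal.ofReal (K₀ * r ^ d₁)) ∧
  (∀ (t : E k) (r : ℝ), 1 ≤ r → ν₂ (closedBall t r) ≤ ENNReal.ofReal (K₀ * r ^ d₂)) ∧
  μ₁ = cyl m ν₁ ∧ μ₂ = cyl m ν₂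

/-- local bounds, `k = 1`, powers of `A` -/
theorem loc2 (m : ℕ) (hGA : S_GA m) (hLS : S_LS (m + 1)) (hBS : S_BS m) (hRX : S_RX m)
    (ψ θ : ℝ → ℝ) (hψ : Bump ψ) (hθ : Cut θ) (β₁ β₂ K₀ p ε M₀ : ℝ) (h10 : 0 ≤ β₁) (h11 : β₁ ≤ 1)
    (h20 : 0 ≤ β₂) (h21 : β₂ ≤ 1) (hK : 0 ≤ K₀) (hp : 2 ≤ p)
    (hs : 2 * ((m : ℝ) + 1) * (1 / 2 - 1 / p) ≤ 1) (hε : 0 < ε)
    (hA0 : (m : ℝ) * (1 / 2 - 1 / p) - ((1 - β₁) * (1 + 2 * (1 / 2 - 1 / p)) +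
      (1 - β₂) * (1 - 2 * (1 / 2 - 1 / p))) ≤ M₀)
    (hA1 : ((m : ℝ) - 1) * (1 / 2 - 1 / p) - ((1 - β₁) * (1 / 2 + (1 / 2 - 1 / p)) +
      (1 - β₂) * (1 / 2 - (1 / 2 - 1 / p))) ≤ M₀)
    (hL : 2 * (1 / 2 - 1 / p) * ((m : ℝ) + 1) - 1 ≤ M₀) :
    ∃ C : ℝ, 0 < C ∧ ∀ ν₁ ν₂ : Measure (E 1), LD β₁ K₀ ν₁ → LD β₂ K₀ ν₂ →
      (∀ A l : ℝ, 64 ≤ A → Adm θ A l → ∀ (u : E (m + 1)) (f : E (m + 1) → ℂ), BB f →
        (∀ x, 2 * A ^ (1 + ε) < bw m l (x - u) → f x = 0) →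
        ∫⁻ x, ‖Tm (pm m ψ θ A l) f (cyl m ν₁) x‖ₑ ^ p ∂(cyl m ν₂) ≤
          ENNReal.ofReal (C * A ^ (p * (M₀ / 2 + ε))) * ∫⁻ x, ‖f x‖ₑ ^ p ∂(cyl m ν₁)) ∧
      ((∀ s, s ≤ 1 → θ s = 1) → ∀ A : ℝ, 64 ≤ A → ∀ (u : E (m + 1)) (f : E (m + 1) → ℂ), BB f →
        (∀ x, 2 * A ^ (1 + ε) < bw m 1 (x - u) → f x = 0) →
        ∫⁻ x, ‖Tm (hi m ψ θ A) f (cyl m ν₁) x‖ₑ ^ p ∂(cyl m ν₂) ≤
          ENNReal.ofReal (C * A ^ (p * (M₀ / 2 + ε))) * ∫⁻ x, ‖f x‖ₑ ^ p ∂(cyl m ν₁)) := by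
  have hp0 : 0 < p := by linarith
  obtain ⟨C, hC, hb⟩ := k2 m hGA hLS hBS hRX ψ θ hψ hθ β₁ β₂ K₀ p ε h10 h11 h20 h21 hK hp hs hε
  set s : ℝ := 1 / 2 - 1 / p with hsd
  have hs0 : 0 ≤ s := by
    rw [hsd, sub_nonneg, one_div_le_one_div hp0 two_pos]; exact hp
  have hps : p / 2 - 1 = p * s := by rw [hsd]; field_simp
  refine ⟨C, hC, fun ν₁ ν₂ hν₁ hν₂ => ⟨fun A l hA hAdm u f hf hfs => ?_,
    fun hθ1 A hA u f hf hfs => ?_⟩⟩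
  · have hA0' : 0 < A := by linarith
    have hA1' : 1 ≤ A := by linarith
    obtain ⟨v, hv0, hv1, hlv⟩ := lam (by linarith) hAdm.2.1 (by linarith [hAdm.2.2.1])
      hAdm.2.2.2.1
    have hρ : 1 ≤ l * A ^ (1 + ε) := by
      rw [hlv, ← Real.rpow_add hA0']
      exact Real.one_le_rpow hA1' (by linarith)
    refine ((hb ν₁ ν₂ hν₁ hν₂).1 A l hAdm u (A ^ (1 + ε)) (by positivity) hρ f hf
      (fun x hx => hfs x (bw_box m hAdm.2.1 u x _ hx))).trans ?_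
    refine mul_le_mul' (ENNReal.ofReal_le_ofReal ?_) le_rfl
    rw [mul_assoc]
    refine mul_le_mul_of_nonneg_left ?_ hC.le
    rw [hlv]
    exact exp_two m hA1' hv0 hv1 h10 h11 hp hps hs0 hs hε.le hA0 hA1 hL
  · have hA0' : 0 < A := by linarith
    have hA1' : 1 ≤ A := by linarith
    refine ((hb ν₁ ν₂ hν₁ hν₂).2 hθ1 A (by linarith) u (A ^ (1 + ε))
      (Real.one_le_rpow hA1' (by linarith)) f hf
      (fun x hx => hfs x (bw_box m one_pos u x _ hx))).trans ?_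
    refine mul_le_mul' (ENNReal.ofReal_le_ofReal ?_) le_rfl
    rw [mul_assoc]
    refine mul_le_mul_of_nonneg_left ?_ hC.le
    have h := exp_two m (v := 0) hA1' le_rfl (by norm_num) h10 h11 hp hps hs0 hs hε.le hA0 hA1 hL
    rw [neg_zero, Real.rpow_zero, mul_one, one_mul] at h
    exact h

/-- global bounds, `k = 1` -/
theorem glb2 (m : ℕ) (hGM : S_GM (m + 1)) (hDC : S_DC m) (hGA : S_GA m) (hLS : S_LS (m + 1))
    (hBS : S_BS m) (hRX : S_RX m)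
    (ψ θ : ℝ → ℝ) (hψ : Bump ψ) (hθ : Cut θ) (β₁ β₂ K₀ p ε M₀ : ℝ) (h10 : 0 ≤ β₁) (h11 : β₁ ≤ 1)
    (h20 : 0 ≤ β₂) (h21 : β₂ ≤ 1) (hK : 0 < K₀) (hp : 2 ≤ p)
    (hs : 2 * ((m : ℝ) + 1) * (1 / 2 - 1 / p) ≤ 1) (hε : 0 < ε)
    (hA0 : (m : ℝ) * (1 / 2 - 1 / p) - ((1 - β₁) * (1 + 2 * (1 / 2 - 1 / p)) +
      (1 - β₂) * (1 - 2 * (1 / 2 - 1 / p))) ≤ M₀)
    (hA1 : ((m : ℝ) - 1) * (1 / 2 - 1 / p) - ((1 - β₁) * (1 / 2 + (1 / 2 - 1 / p)) +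
      (1 - β₂) * (1 / 2 - (1 / 2 - 1 / p))) ≤ M₀)
    (hL : 2 * (1 / 2 - 1 / p) * ((m : ℝ) + 1) - 1 ≤ M₀) :
    ∃ C : ℝ, 0 < C ∧ ∀ ν₁ ν₂ : Measure (E 1), LD β₁ K₀ ν₁ → LD β₂ K₀ ν₂ →
      (∀ A l : ℝ, 64 ≤ A → Adm θ A l → ∀ f : E (m + 1) → ℂ, BB f →
        ∫⁻ x, ‖Tm (pm m ψ θ A l) f (cyl m ν₁) x‖ₑ ^ p ∂(cyl m ν₂) ≤
          ENNReal.ofReal (C * A ^ (p * (M₀ / 2 + ε))) * ∫⁻ x, ‖f x‖ₑ ^ p ∂(cyl m ν₁)) ∧
      ((∀ s, s ≤ 1 → θ s = 1) → ∀ A : ℝ, 64 ≤ A → ∀ f : E (m + 1) → ℂ, BB f →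
        ∫⁻ x, ‖Tm (hi m ψ θ A) f (cyl m ν₁) x‖ₑ ^ p ∂(cyl m ν₂) ≤
          ENNReal.ofReal (C * A ^ (p * (M₀ / 2 + ε))) * ∫⁻ x, ‖f x‖ₑ ^ p ∂(cyl m ν₁)) := by
  obtain ⟨C₁, hC₁, hL1⟩ := loc2 m hGA hLS hBS hRX ψ θ hψ hθ β₁ β₂ K₀ p ε M₀ h10 h11 h20 h21 hK.le
    hp hs hε hA0 hA1 hL
  obtain ⟨D₁, hD₁, hDim₁⟩ := cyl_dim m β₁ K₀ h10 h11 hK
  obtain ⟨D₂, hD₂, hDim₂⟩ := cyl_dim m β₂ K₀ h20 h21 hK
  have hmono : ∀ (D D' : ℝ) (μ : Measure (E (m + 1))), D ≤ D' → DimC ((m : ℝ) + 1) D μ →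
      DimC ((m + 1 : ℕ) : ℝ) D' μ := by
    intro D D' μ hDD h x r hr
    refine (h x r hr).trans (ENNReal.ofReal_le_ofReal ?_)
    push_cast
    exact mul_le_mul_of_nonneg_right hDD (by positivity)
  obtain ⟨N, hN⟩ := gm_pow (m + 1) hGM p ε (M₀ / 2 + ε) (D₁ + D₂) C₁ (by linarith) hε
    (by positivity) hC₁
  obtain ⟨C₂, hC₂, h2⟩ := hDC ψ θ hψ hθ N
  obtain ⟨C₃, hC₃, h3⟩ := hi_dec m hDC hψ hθ N
  obtain ⟨C, hC, hb⟩ := hN (C₂ + C₃) (by positivity)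
  refine ⟨C, hC, fun ν₁ ν₂ hν₁ hν₂ => ⟨fun A l hA hAdm f hf => ?_, fun hθ1 A hA f hf => ?_⟩⟩
  · have hA0 : 0 < A := by linarith
    have hl0 := hAdm.2.1
    have hl1 : l ≤ 1 := by linarith [hAdm.2.2.1]
    refine hb (cyl m ν₁) (cyl m ν₂) (hmono _ _ _ (by linarith) (hDim₁ ν₁ hν₁))
      (hmono _ _ _ (by linarith) (hDim₂ ν₂ hν₂)) A (by linarith) (bw m l) (bw_cont m hl0)
      (bw_norm m hl0 hl1) (pm m ψ θ A l) (pm_int m hψ hθ hA0 l) (fun x => ?_)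
      (fun u g hg hg2 => (hL1 ν₁ ν₂ hν₁ hν₂).1 A l hA hAdm u g hg hg2) f hf
    refine (mul_le_mul_of_nonneg_right (pow_le_pow_left₀ (apply_nonneg _ _)
      (bw_le m hl0 x) N) (norm_nonneg _)).trans ?_
    refine (h2 A (by linarith) l hl0 hl1 hAdm.2.2.2.1 x).trans ?_
    have : 0 < A ^ N := by positivity
    nlinarith
  · have hA0 : 0 < A := by linarith
    refine hb (cyl m ν₁) (cyl m ν₂) (hmono _ _ _ (by linarith) (hDim₁ ν₁ hν₁))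
      (hmono _ _ _ (by linarith) (hDim₂ ν₂ hν₂)) A (by linarith) (bw m 1) (bw_cont m one_pos)
      (bw_norm m one_pos le_rfl) (hi m ψ θ A) (hi_int m hψ hθ hA0) (fun x => ?_)
      (fun u g hg hg2 => (hL1 ν₁ ν₂ hν₁ hν₂).2 hθ1 A hA u g hg hg2) f hf
    refine (mul_le_mul_of_nonneg_right (pow_le_pow_left₀ (apply_nonneg _ _)
      (bw_le m one_pos x) N) (norm_nonneg _)).trans ?_
    refine (h3 A hA x).trans ?_
    have : 0 < A ^ N := by positivity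
    nlinarith

/-- linearity in the multiplier -/
theorem Tm_sum {n : ℕ} {ι : Type*} (s : Finset ι) (Q : ι → E n → ℂ) (q : E n → ℂ)
    (hq : Continuous q) (hq2 : ∀ ξ, 2 < ‖ξ‖ → q ξ = 0)
    (hQ : ∀ i ∈ s, Continuous (Q i)) (hQ2 : ∀ i ∈ s, ∀ ξ, 2 < ‖ξ‖ → Q i ξ = 0)
    (h : ∀ ξ, q ξ = ∑ i ∈ s, Q i ξ) {f : E n → ℂ} {μ : Measure (E n)} [SFinite μ]
    (hf : Integrable f μ) (x : E n) :
    Tm q f μ x = ∑ i ∈ s, Tm (Q i) f μ x := by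
  rw [Tm_eq hq hq2 hf, Finset.sum_congr rfl fun i hi => Tm_eq (hQ i hi) (hQ2 i hi) hf x,
    ← integral_finsetSum]
  · refine integral_congr_ae (Eventually.of_forall fun ξ => ?_)
    simp only
    rw [h ξ, Finset.sum_mul, Finset.mul_sum]
  · intro i hi
    have hqi := q_int (hQ i hi) (hQ2 i hi)
    refine (hqi.norm.mul_const (∫ x, ‖f x‖ ∂μ)).mono' ?_ (Eventually.of_forall fun ξ => ?_)
    · have h1 : Continuous fun ξ : E n => cexp (((-2 * Real.pi * ⟪x, ξ⟫ : ℝ) : ℂ) * I) := by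
        fun_prop
      exact (h1.mul ((hQ i hi).mul (Fm_cont hf))).aestronglyMeasurable
    · rw [norm_mul, Complex.norm_exp_ofReal_mul_I, one_mul, norm_mul]
      exact mul_le_mul_of_nonneg_left (Fm_bdd μ ξ) (norm_nonneg _)

/-- sums of operators -/
theorem sum_le2 {n : ℕ} {ι : Type*} (s : Finset ι) (Q : ι → E n → ℂ) (q : E n → ℂ)
    (hq : Continuous q) (hq2 : ∀ ξ, 2 < ‖ξ‖ → q ξ = 0)
    (hQ : ∀ i ∈ s, Continuous (Q i)) (hQ2 : ∀ i ∈ s, ∀ ξ, 2 < ‖ξ‖ → Q i ξ = 0)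
    (h : ∀ ξ, q ξ = ∑ i ∈ s, Q i ξ) {f : E n → ℂ} {μ : Measure (E n)} [SFinite μ]
    (hf : Integrable f μ) (p : ℝ) (hp : 1 ≤ p)
    (ν : Measure (E n)) (B : ℝ≥0∞) (hB : ∀ i ∈ s, ∫⁻ x, ‖Tm (Q i) f μ x‖ₑ ^ p ∂ν ≤ B) :
    ∫⁻ x, ‖Tm q f μ x‖ₑ ^ p ∂ν ≤ (s.card : ℝ≥0∞) ^ p * B := by
  have hp0 : 0 < p := by linarith
  have hp1 : 0 ≤ p - 1 := by linarith
  calc ∫⁻ x, ‖Tm q f μ x‖ₑ ^ p ∂ν ≤
      ∫⁻ x, (s.card : ℝ≥0∞) ^ (p - 1) * ∑ i ∈ s, ‖Tm (Q i) f μ x‖ₑ ^ p ∂ν := by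
        refine lintegral_mono fun x => ?_
        rw [Tm_sum s Q q hq hq2 hQ hQ2 h hf x]
        refine (ENNReal.rpow_le_rpow (enorm_sum_le _ _) hp0.le).trans ?_
        exact ENNReal.rpow_sum_le_const_mul_sum_rpow _ _ hp
    _ = (s.card : ℝ≥0∞) ^ (p - 1) * ∑ i ∈ s, ∫⁻ x, ‖Tm (Q i) f μ x‖ₑ ^ p ∂ν := by
        rw [lintegral_const_mul' _ _ (ENNReal.rpow_ne_top_of_nonneg hp1 (by simp)),
          lintegral_finsetSum' _ fun i hi =>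
            ((Tm_cont (hQ i hi) (hQ2 i hi) hf).measurable.enorm.pow_const _).aemeasurable]
    _ ≤ (s.card : ℝ≥0∞) ^ (p - 1) * (s.card * B) := by
        gcongr
        refine (Finset.sum_le_sum hB).trans ?_
        rw [Finset.sum_const, nsmul_eq_mul]
    _ = _ := by
        rw [← mul_assoc]
        congr 1
        by_cases hc : s.card = 0
        · rw [hc]
          simp [ENNReal.zero_rpow_of_pos hp0]
        · nth_rw 2 [← ENNReal.rpow_one (s.card : ℝ≥0∞)]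
          rw [← ENNReal.rpow_add_of_nonneg _ _ hp1 zero_le_one]
          congr 1
          ring

theorem lf_of_fb {n : ℕ} {μ : Measure (E n)} (h : Fb μ) : IsLocallyFiniteMeasure μ :=
  ⟨fun x => ⟨closedBall x 1, closedBall_mem_nhds x one_pos, h x 1⟩⟩

/-- the pieces, `k = 1` -/
theorem p2_one (m : ℕ) (hCM : S_CM (m + 1)) (hGM : S_GM (m + 1)) (hDC : S_DC m) (hGA : S_GA m)
    (hLS : S_LS (m + 1)) (hBS : S_BS m) (hRX : S_RX m)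
    (β₁ β₂ K₀ p M₀ σ : ℝ) (h10 : 0 ≤ β₁) (h11 : β₁ ≤ 1)
    (h20 : 0 ≤ β₂) (h21 : β₂ ≤ 1) (hK : 0 < K₀) (hp : 2 ≤ p)
    (hs : 2 * ((m : ℝ) + 1) * (1 / 2 - 1 / p) ≤ 1)
    (hA0 : (m : ℝ) * (1 / 2 - 1 / p) - ((1 - β₁) * (1 + 2 * (1 / 2 - 1 / p)) +
      (1 - β₂) * (1 - 2 * (1 / 2 - 1 / p))) ≤ M₀)
    (hA1 : ((m : ℝ) - 1) * (1 / 2 - 1 / p) - ((1 - β₁) * (1 / 2 + (1 / 2 - 1 / p)) +
      (1 - β₂) * (1 / 2 - (1 / 2 - 1 / p))) ≤ M₀)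
    (hL : 2 * (1 / 2 - 1 / p) * ((m : ℝ) + 1) - 1 ≤ M₀) (hσ : M₀ < 2 * σ) :
    P2 (m + 1) (Xp m 1 β₁ β₂ K₀) p σ := by
  have hp0 : 0 < p := by linarith
  obtain ⟨D₁, hD₁, hDim₁⟩ := cyl_dim m β₁ K₀ h10 h11 hK
  obtain ⟨D₂, hD₂, hDim₂⟩ := cyl_dim m β₂ K₀ h20 h21 hK
  have hmono : ∀ (D D' : ℝ) (μ : Measure (E (m + 1))), D ≤ D' → DimC ((m : ℝ) + 1) D μ →
      DimC ((m + 1 : ℕ) : ℝ) D' μ := by
    intro D D' μ hDD h x r hr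
    refine (h x r hr).trans (ENNReal.ofReal_le_ofReal ?_)
    push_cast
    exact mul_le_mul_of_nonneg_right hDD (by positivity)
  refine p2_of_large (m + 1) hCM _ (D₁ + D₂) p σ (by positivity) (by linarith) ?_ ?_
  · rintro μ₁ μ₂ ⟨ν₁, ν₂, hν₁, hν₂, rfl, rfl⟩
    exact ⟨hmono _ _ _ (by linarith) (hDim₁ ν₁ hν₁), hmono _ _ _ (by linarith) (hDim₂ ν₂ hν₂)⟩
  intro ψ hψ
  set ε : ℝ := (2 * σ - M₀) / 4 with hε
  have hε0 : 0 < ε := by rw [hε]; linarith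
  set σ' : ℝ := M₀ / 2 + ε with hσ'
  have hη0 : 0 < ε := hε0
  obtain ⟨C1, hC1, h1⟩ := glb2 m hGM hDC hGA hLS hBS hRX ψ th0 hψ th0_cut β₁ β₂ K₀ p ε M₀ h10 h11
    h20 h21 hK hp hs hε0 hA0 hA1 hL
  obtain ⟨C2, hC2, h2⟩ := glb2 m hGM hDC hGA hLS hBS hRX ψ tha hψ tha_cut β₁ β₂ K₀ p ε M₀ h10 h11
    h20 h21 hK hp hs hε0 hA0 hA1 hL
  refine ⟨(1 / ε) ^ p * (C1 + C2), by positivity, ?_⟩
  rintro μ₁ μ₂ ⟨ν₁, ν₂, hν₁, hν₂, rfl, rfl⟩ A hA4 f hf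
  have hA0 : 0 < A := by linarith
  have hA : 1 ≤ A := by linarith
  have hFb := fb_cyl m h10 h11 hK.le hν₁
  have := lf_of_fb hFb
  have hfi := bb_int hf hFb
  obtain ⟨J, hJ1, hJ2⟩ := exists_nat_pow_near hA (show (1 : ℝ) < 4 by norm_num)
  have hJ3 : 3 ≤ J := by
    by_contra hc
    push Not at hc
    have : (4 : ℝ) ^ (J + 1) ≤ 4 ^ 3 := pow_le_pow_right₀ (by norm_num) (by omega)
    norm_num at this
    linarith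
  set Q : ℕ → E (m + 1) → ℂ := fun j => if j = 2 then hi m ψ th0 A else
    if j < J then pm m ψ tha A ((2 : ℝ) ^ (-(j : ℝ))) else pm m ψ th0 A ((2 : ℝ) ^ (-(J : ℝ)))
    with hQ
  set B : ℝ≥0∞ := ENNReal.ofReal ((C1 + C2) * A ^ (p * σ')) * ∫⁻ x, ‖f x‖ₑ ^ p ∂(cyl m ν₁) with hB
  have hAσ : 0 < A ^ (p * σ') := Real.rpow_pos_of_pos hA0 _
  have hlj : ∀ j : ℕ, A * ((2 : ℝ) ^ (-(j : ℝ))) ^ 2 = A / 4 ^ j := by
    intro j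
    rw [Real.rpow_neg (by norm_num), Real.rpow_natCast, inv_pow, ← pow_mul, mul_comm j 2, pow_mul]
    norm_num
    rfl
  have hl8 : ∀ j : ℕ, 3 ≤ j → (2 : ℝ) ^ (-(j : ℝ)) ≤ 1 / 8 := by
    intro j hj
    rw [Real.rpow_neg (by norm_num), Real.rpow_natCast, one_div]
    apply inv_anti₀ (by norm_num)
    calc (8 : ℝ) = 2 ^ 3 := by norm_num
      _ ≤ 2 ^ j := pow_le_pow_right₀ (by norm_num) hj
  have hQc : ∀ j, Continuous (Q j) := by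
    intro j
    simp only [hQ]
    split_ifs
    · exact hi_cont m hψ th0_cut A
    · exact pm_cont m hψ tha_cut A _
    · exact pm_cont m hψ th0_cut A _
  have hQf : ∀ j, ∀ ξ, 2 < ‖ξ‖ → Q j ξ = 0 := by
    intro j
    simp only [hQ]
    split_ifs
    · exact hi_far m hψ _ hA0
    · exact pm_far m hψ _ hA0 _
    · exact pm_far m hψ _ hA0 _
  have hQs : ∀ ξ, mu ψ A 1 ξ = ∑ j ∈ Finset.Ico 2 (J + 1), Q j ξ := by
    intro ξ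
    have e0 : ∑ j ∈ Finset.Ico 2 J, Q j ξ = Q 2 ξ + ∑ j ∈ Finset.Ico (2 + 1) J, Q j ξ :=
      Finset.sum_eq_sum_Ico_succ_bot (by omega) _
    rw [tele m ψ A J hJ3 ξ, Finset.sum_Ico_succ_top (by omega), e0]
    have e1 : Q 2 ξ = hi m ψ th0 A ξ := by simp [hQ]
    have e2 : Q J ξ = pm m ψ th0 A ((2 : ℝ) ^ (-(J : ℝ))) ξ := by
      simp only [hQ]
      rw [if_neg (by omega), if_neg (by omega)]
    have e3 : ∑ j ∈ Finset.Ico (2 + 1) J, Q j ξ =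
        ∑ j ∈ Finset.Ico 3 J, pm m ψ tha A ((2 : ℝ) ^ (-(j : ℝ))) ξ := by
      refine Finset.sum_congr rfl fun j hj => ?_
      rw [Finset.mem_Ico] at hj
      simp only [hQ]
      rw [if_neg (by omega), if_pos hj.2]
    rw [e1, e2, e3]
  have hQB : ∀ j ∈ Finset.Ico 2 (J + 1),
      ∫⁻ x, ‖Tm (Q j) f (cyl m ν₁) x‖ₑ ^ p ∂(cyl m ν₂) ≤ B := by
    intro j hj
    rw [Finset.mem_Ico] at hj
    have hle1 : ENNReal.ofReal (C1 * A ^ (p * σ')) ≤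
        ENNReal.ofReal ((C1 + C2) * A ^ (p * σ')) := by
      apply ENNReal.ofReal_le_ofReal
      nlinarith
    have hle2 : ENNReal.ofReal (C2 * A ^ (p * σ')) ≤
        ENNReal.ofReal ((C1 + C2) * A ^ (p * σ')) := by
      apply ENNReal.ofReal_le_ofReal
      nlinarith
    simp only [hQ]
    split_ifs with h5 h6
    · exact ((h1 ν₁ ν₂ hν₁ hν₂).2 th0_one A hA4 f hf).trans (mul_le_mul' hle1 le_rfl)
    · refine ((h2 ν₁ ν₂ hν₁ hν₂).1 A _ hA4 ⟨by linarith, Real.rpow_pos_of_pos two_pos _,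
        hl8 j (by omega), ?_, Or.inl fun s hs => tha_zero s hs⟩ f hf).trans
        (mul_le_mul' hle2 le_rfl)
      rw [hlj, le_div_iff₀ (by positivity), one_mul]
      exact (pow_le_pow_right₀ (by norm_num) h6.le).trans hJ1
    · refine ((h1 ν₁ ν₂ hν₁ hν₂).1 A _ hA4 ⟨by linarith, Real.rpow_pos_of_pos two_pos _,
        hl8 J hJ3, ?_, Or.inr ?_⟩ f hf).trans (mul_le_mul' hle1 le_rfl)
      · rw [hlj, le_div_iff₀ (by positivity), one_mul]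
        exact hJ1
      · rw [hlj, div_le_iff₀ (by positivity)]
        rw [pow_succ] at hJ2
        have : (0 : ℝ) < 4 ^ J := by positivity
        linarith
  have key := sum_le2 (Finset.Ico 2 (J + 1)) Q (mu ψ A 1) (mu_cont hψ A 1)
    (fun ξ hξ => mu_far hψ hA0 one_pos ξ (by linarith)) (fun i _ => hQc i) (fun i _ => hQf i)
    hQs hfi p (by linarith) (cyl m ν₂) B hQB
  refine key.trans ?_
  have hcard : ((Finset.Ico 2 (J + 1)).card : ℝ≥0∞) ≤ ENNReal.ofReal (1 / ε * A ^ ε) := by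
    rw [Nat.card_Ico, ← ENNReal.ofReal_natCast]
    apply ENNReal.ofReal_le_ofReal
    have g1 : ((J + 1 - 2 : ℕ) : ℝ) ≤ J := by exact_mod_cast (by omega : J + 1 - 2 ≤ J)
    have g2 : (J : ℝ) * Real.log 4 ≤ Real.log A := by
      rw [← Real.log_pow]
      exact Real.log_le_log (by positivity) hJ1
    have g3 := Real.log_le_rpow_div hA0.le hη0
    have g4 : 1 ≤ Real.log 4 := by
      rw [Real.le_log_iff_exp_le (by norm_num)]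
      exact Real.exp_one_lt_three.le.trans (by norm_num)
    have g5 : (J : ℝ) ≤ J * Real.log 4 := by nlinarith [Nat.cast_nonneg (α := ℝ) J]
    calc ((J + 1 - 2 : ℕ) : ℝ) ≤ A ^ ε / ε := by linarith
      _ = _ := by ring
  refine (mul_le_mul' (ENNReal.rpow_le_rpow hcard hp0.le) le_rfl).trans ?_
  rw [hB, ← mul_assoc, ENNReal.ofReal_rpow_of_nonneg (by positivity) hp0.le,
    ← ENNReal.ofReal_mul (by positivity)]
  refine mul_le_mul' (ENNReal.ofReal_le_ofReal ?_) le_rfl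
  have e7 : (1 / ε * A ^ ε) ^ p * ((C1 + C2) * A ^ (p * σ')) =
      ((1 / ε) ^ p * (C1 + C2)) * A ^ (p * (σ' + ε)) := by
    rw [Real.mul_rpow (by positivity) (by positivity), ← Real.rpow_mul hA0.le]
    have : A ^ (p * (σ' + ε)) = A ^ (ε * p) * A ^ (p * σ') := by
      rw [← Real.rpow_add hA0]; congr 1; ring
    rw [this]
    ring
  rw [e7]
  refine mul_le_mul_of_nonneg_left ?_ (by positivity)
  refine Real.rpow_le_rpow_of_exponent_le hA (mul_le_mul_of_nonneg_left ?_ hp0.le)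
  rw [hσ', hε]
  linarith

end Pool.Agent.Y248.FE
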