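import Mathlib
import Pool.Agent.Y248.FE.Glb
import Pool.Agent.Y48.FE.GM
import Pool.Agent.Y421.FE.G0
import Pool.Agent.Y248.FD.Main
set_option autoImplicit false

/-! # Project FE: the pieces, `k ≥ 2` -/

namespace Pool.Agent.Y248.FE

open MeasureTheory Set Metric Complex Filter
open scoped ENNReal RealInnerProductSpace Topology FourierTransform
open Pool.Agent.H789R2.FR (E sg T)
open Pool.Agent.H438R2.RZ (Bump)
open Pool.Agent.Y248.BA (mu Kr Tp)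
open Pool.Agent.Y248.FB Pool.Agent.Y248.FC Pool.Agent.Y248.FD

theorem DimC.mono {n : ℕ} {α β D D' : ℝ} {μ : Measure (E n)} (h : DimC α D μ) (hα : α ≤ β)
    (hD0 : 0 ≤ D) (hD : D ≤ D') : DimC β D' μ := by
  intro x r hr
  refine (h x r hr).trans (ENNReal.ofReal_le_ofReal ?_)
  calc D * r ^ α ≤ D * r ^ β := mul_le_mul_of_nonneg_left
        (Real.rpow_le_rpow_of_exponent_le hr hα) hD0
    _ ≤ D' * r ^ β := mul_le_mul_of_nonneg_right hD (by positivity)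

theorem Gain.mono {n : ℕ} {γ K K' : ℝ} {μ : Measure (E n)} (h : Gain γ K μ) (hK : K ≤ K') :
    Gain γ K' μ := by
  intro ρ hρ g hg
  refine (h ρ hρ g hg).trans (mul_le_mul' (ENNReal.ofReal_le_ofReal ?_) le_rfl)
  exact mul_le_mul_of_nonneg_right hK (by positivity)

/-- dimension of the cylinders -/
theorem cyl_dimk (m k : ℕ) (d K₀ : ℝ) (hd0 : 0 ≤ d) (hdk : d ≤ k) (hK : 0 < K₀) :
    ∃ D : ℝ, 0 < D ∧ ∀ ν : Measure (E k),
      (∀ (t : E k) (r : ℝ), 1 ≤ r → ν (closedBall t r) ≤ ENNReal.ofReal (K₀ * r ^ d)) →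
      DimC ((m : ℝ) + d) D (cyl m ν) := by
  obtain ⟨⟨D, hD, hDim⟩, -⟩ := Pool.Agent.Y79.FC.t_cy m k
  exact ⟨D * K₀, by positivity, fun ν hν x r hr => hDim d K₀ hd0 hdk hK.le ν hν x r hr⟩

/-- gains of the cylinders, `k ≥ 2` -/
theorem gain_all (m k : ℕ) (hk : 2 ≤ k) (d K₀ γ : ℝ) (hd1 : (k : ℝ) / 2 ≤ d) (hd2 : d ≤ k)
    (hK : 0 < K₀) (hγ : γ = 0 ∨ γ < ((k : ℝ) + 1) / 2 - d ∧ d ≤ ((k : ℝ) + 1) / 2) :
    ∃ K : ℝ, 0 < K ∧ ∀ ν : Measure (E k),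
      (∀ (t : E k) (r : ℝ), 1 ≤ r → ν (closedBall t r) ≤ ENNReal.ofReal (K₀ * r ^ d)) →
      Gain γ K (cyl m ν) := by
  have hk2 : (2 : ℝ) ≤ k := by exact_mod_cast hk
  rcases hγ with rfl | ⟨hγ, hd3⟩
  · obtain ⟨D, hD, hDim⟩ := cyl_dimk m k d K₀ (by linarith) hd2 hK
    obtain ⟨K, hKp, hG⟩ := Pool.Agent.Y421.FE.t_g0 (m + k) D hD
    refine ⟨K, hKp, fun ν hν => hG _ (DimC.mono (hDim ν hν) ?_ hD.le le_rfl)⟩
    push_cast
    linarith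
  · obtain ⟨K, hKpos, hAnn⟩ := Pool.Agent.Y86.FC.t_an k hk
      (Pool.Agent.Y210.FB.t_kk k hk (Pool.Agent.Y407.FB.t_rad k hk)) d γ K₀ hd1 hd3 hγ hK.le
    refine ⟨K, hKpos, fun ν hν => ?_⟩
    refine Pool.Agent.Y363.FC.t_sl m k γ K ν (fun t r => ?_) (hAnn ν hν)
    refine (measure_mono (closedBall_subset_closedBall (le_max_left r 1))).trans_lt ?_
    exact (hν t _ (le_max_right r 1)).trans_lt ENNReal.ofReal_lt_top

/-- the gain of sets of dimension `d` in dimension `k` -/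
noncomputable def gam (k : ℕ) (d : ℝ) : ℝ := max 0 (((k : ℝ) + 1) / 2 - d)

/-- the pieces, `k ≥ 2` -/
theorem p2_ge2 (m k : ℕ) (hk : 2 ≤ k) (d₁ d₂ K₀ p σ : ℝ) (h11 : (k : ℝ) / 2 ≤ d₁) (h12 : d₁ ≤ k)
    (h21 : (k : ℝ) / 2 ≤ d₂) (h22 : d₂ ≤ k) (hK : 0 < K₀) (hp : 2 ≤ p)
    (h1 : ((m : ℝ) + d₁) * (1 / 2 - 1 / p) - gam k d₁ / 2 - 1 / 2 < σ)
    (h2 : ((m : ℝ) + d₁) * (1 / 2 - 1 / p) - gam k d₁ / 2 - (gam k d₂ +
      (((m + k : ℕ) : ℝ) + 1 - 2 * gam k d₂) * (1 / 2 - 1 / p)) / 2 < σ) :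
    P2 (m + k) (Xp m k d₁ d₂ K₀) p σ := by
  have hk2 : (2 : ℝ) ≤ k := by exact_mod_cast hk
  have hp0 : 0 < p := by linarith
  have hn2 : 2 ≤ m + k := by omega
  set g : ℝ → ℝ := fun ε => (-th (m + k) (max 0 (gam k d₂ - ε)) p - max 0 (gam k d₁ - ε)) *
    (p / 2) + ((m : ℝ) + d₁) * (p / 2 - 1) with hg
  have hgc : Continuous g := by
    rw [hg]
    unfold th
    fun_prop
  have g10 : 0 ≤ gam k d₁ := le_max_left _ _
  have g20 : 0 ≤ gam k d₂ := le_max_left _ _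
  have hps : p / 2 - 1 = p * (1 / 2 - 1 / p) := by field_simp
  have hg0 : g 0 < p * σ := by
    simp only [hg, sub_zero, max_eq_right g10, max_eq_right g20]
    unfold th
    rw [hps]
    rcases min_cases (1 : ℝ) (gam k d₂ + (((m + k : ℕ) : ℝ) + 1 - 2 * gam k d₂) *
      (1 / 2 - 1 / p)) with ⟨h, -⟩ | ⟨h, -⟩
    · rw [h]
      have := mul_lt_mul_of_pos_left h1 hp0
      refine lt_of_eq_of_lt ?_ this
      ring
    · rw [h]
      have := mul_lt_mul_of_pos_left h2 hp0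
      refine lt_of_eq_of_lt ?_ this
      ring
  obtain ⟨a, ha1, ha2⟩ := exists_between hg0
  obtain ⟨ε, hε, he⟩ := exists_eps hgc ha1
  have key : ∀ d : ℝ, (k : ℝ) / 2 ≤ d → d ≤ k → 0 ≤ max 0 (gam k d - ε) ∧
      max 0 (gam k d - ε) ≤ 1 ∧ (max 0 (gam k d - ε) = 0 ∨
        max 0 (gam k d - ε) < ((k : ℝ) + 1) / 2 - d ∧ d ≤ ((k : ℝ) + 1) / 2) := by
    intro d hd1 hd2
    have hgd : gam k d ≤ 1 / 2 := max_le (by norm_num) (by linarith)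
    refine ⟨le_max_left _ _, max_le zero_le_one (by linarith), ?_⟩
    rcases le_or_gt (gam k d - ε) 0 with h | h
    · exact Or.inl (max_eq_left h)
    · right
      rw [max_eq_right h.le]
      have h3 : 0 < gam k d := by linarith
      have h4 : gam k d = ((k : ℝ) + 1) / 2 - d := by
        unfold gam at h3 ⊢
        rcases max_cases (0 : ℝ) (((k : ℝ) + 1) / 2 - d) with ⟨h5, -⟩ | ⟨h5, -⟩
        · rw [h5] at h3; exact absurd h3 (lt_irrefl _)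
        · exact h5
      exact ⟨by linarith, by linarith⟩
  obtain ⟨a1, a2, a3⟩ := key d₁ h11 h12
  obtain ⟨b1, b2, b3⟩ := key d₂ h21 h22
  obtain ⟨K₁, hK₁, hG₁⟩ := gain_all m k hk d₁ K₀ _ h11 h12 hK a3
  obtain ⟨K₂, hK₂, hG₂⟩ := gain_all m k hk d₂ K₀ _ h21 h22 hK b3
  obtain ⟨D₁, hD₁, hDim₁⟩ := cyl_dimk m k d₁ K₀ (by linarith) h12 hK
  obtain ⟨D₂, hD₂, hDim₂⟩ := cyl_dimk m k d₂ K₀ (by linarith) h22 hK
  have hkk := Pool.Agent.Y210.FB.t_kk (m + k) hn2 (Pool.Agent.Y407.FB.t_rad (m + k) hn2)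
  have hGE := Pool.Agent.Y350.FC.t_ge (m + k) hn2 (Pool.Agent.Y350.FC.t_sp (m + k) hn2 hkk)
  refine p2_two (m + k) hGE (Pool.Agent.Y48.FE.t_gm (m + k)) (Pool.Agent.Y48.FE.t_cm (m + k)) _
    (max 0 (gam k d₁ - ε)) (max 0 (gam k d₂ - ε)) (K₁ + K₂) (D₁ + D₂) ((m : ℝ) + d₁) p σ
    a1 a2 b1 b2 (by positivity) (by positivity)
    (add_nonneg (Nat.cast_nonneg m) (by linarith)) hp ?_ (he.trans_lt ha2)
  rintro μ₁ μ₂ ⟨ν₁, ν₂, hν₁, hν₂, rfl, rfl⟩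
  refine ⟨DimC.mono (hDim₁ ν₁ hν₁) ?_ hD₁.le (by linarith),
    DimC.mono (hDim₁ ν₁ hν₁) le_rfl hD₁.le (by linarith),
    Gain.mono (hG₁ ν₁ hν₁) (by linarith),
    DimC.mono (hDim₂ ν₂ hν₂) ?_ hD₂.le (by linarith),
    Gain.mono (hG₂ ν₂ hν₂) (by linarith)⟩
  · push_cast; linarith
  · push_cast; linarith

end Pool.Agent.Y248.FE
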