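import Mathlib
import Pool.Agent.Y248.FE.Asm
import Pool.Agent.Y421.FE.SX
set_option autoImplicit false

/-! # Project FE: summation of the pieces -/

namespace Pool.Agent.Y248.FE

open MeasureTheory Set Metric Complex Filter
open scoped ENNReal RealInnerProductSpace Topology FourierTransform
open Pool.Agent.H789R2.FR (E sg T)
open Pool.Agent.H438R2.RZ (Bump)
open Pool.Agent.Y248.BA (mu Kr Tp mu_cont mu_far)
open Pool.Agent.Y248.FB Pool.Agent.Y248.FC Pool.Agent.Y248.FD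
open Pool.Agent.Y624.FB (geo_s)

theorem sn_core {n : ℕ} (hSX : S_SX n) (X : Measure (E n) → Measure (E n) → Prop) (p δ σ : ℝ)
    (hp : 1 ≤ p) (hδ : 0 ≤ δ) (hσ : σ < δ) (hX : ∀ μ₁ μ₂, X μ₁ μ₂ → Fb μ₁) (hP : P2 n X p σ) :
    ∃ C : ℝ, 0 < C ∧ ∀ μ₁ μ₂ : Measure (E n), X μ₁ μ₂ → ∀ f : E n → ℂ, BB f →
      ∫⁻ x, ‖Sn δ f μ₁ x‖ₑ ^ p ∂μ₂ ≤ ENNReal.ofReal C * ∫⁻ x, ‖f x‖ₑ ^ p ∂μ₁ := by
  obtain ⟨ψ, hψ, hsum⟩ := hSX δ hδ
  obtain ⟨C, hC, hb⟩ := hP ψ hψ
  have hp0 : 0 < p := by linarith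
  have hgeo := geo_s (δ - σ) (by linarith)
  set S : ℝ := Pool.Agent.Y248.FC.Sg (δ - σ) with hS
  unfold Pool.Agent.Y248.FC.Sg at hS
  have hS0 : 0 < S := by
    have h1 : (2 : ℝ) ^ (-((δ - σ) * ((0 : ℕ) : ℝ))) ≤ S :=
      hgeo.le_tsum 0 fun j _ => Real.rpow_nonneg (by norm_num) _
    have h2 : (2 : ℝ) ^ (-((δ - σ) * ((0 : ℕ) : ℝ))) = 1 := by simp
    linarith
  refine ⟨C * S ^ p, by positivity, fun μ₁ μ hμ f hf => ?_⟩
  have hFb := hX _ _ hμ
  have hlf : IsLocallyFiniteMeasure μ₁ :=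
    ⟨fun x => ⟨closedBall x 1, closedBall_mem_nhds x one_pos, hFb x 1⟩⟩
  have hfi := bb_int hf hFb
  have hA1 : ∀ j : ℕ, (1 : ℝ) ≤ 2 ^ j := fun j => one_le_pow₀ (by norm_num)
  have h2n : ∀ j : ℕ, 0 ≤ (2 : ℝ) ^ (-(δ * j)) := fun j => Real.rpow_nonneg (by norm_num) _
  have h0 : ENNReal.ofReal p ≠ 0 := by
    rw [Ne, ENNReal.ofReal_eq_zero]; linarith
  have hp1' : 1 ≤ ENNReal.ofReal p := by
    rw [← ENNReal.ofReal_one]; exact ENNReal.ofReal_le_ofReal hp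
  set Q : ℕ → E n → ℂ := fun j x => Tm (mu ψ (2 ^ j) 1) f μ₁ x with hQ
  have hTm : ∀ j : ℕ, Measurable (Q j) := fun j =>
    (Tm_cont (mu_cont hψ _ 1) (fun ξ hξ => mu_far hψ (by positivity) one_pos ξ (by linarith))
      hfi).measurable
  have hN : ∀ g : E n → ℂ, eLpNorm g (ENNReal.ofReal p) μ = (∫⁻ x, ‖g x‖ₑ ^ p ∂μ) ^ (1 / p) :=
    fun g => by
      rw [eLpNorm_eq_lintegral_rpow_enorm_toReal h0 ENNReal.ofReal_ne_top,
        ENNReal.toReal_ofReal hp0.le]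
  set B : ℝ≥0∞ := ENNReal.ofReal (C ^ (1 / p)) * (∫⁻ x, ‖f x‖ₑ ^ p ∂μ₁) ^ (1 / p) with hB
  have hab : ∀ j, eLpNorm (Q j) (ENNReal.ofReal p) μ ≤ ENNReal.ofReal ((2 : ℝ) ^ (σ * j)) * B := by
    intro j
    rw [hN]
    refine (ENNReal.rpow_le_rpow (hb μ₁ μ hμ (2 ^ j) (hA1 j) f hf)
      (by positivity)).trans (le_of_eq ?_)
    rw [ENNReal.mul_rpow_of_nonneg _ _ (by positivity),
      ENNReal.ofReal_rpow_of_nonneg (by positivity) (by positivity),
      Real.mul_rpow hC.le (by positivity), ← Real.rpow_mul (by positivity), ← Real.rpow_natCast 2 j,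
      ← Real.rpow_mul (by norm_num), show (j : ℝ) * (p * σ * (1 / p)) = σ * j by field_simp,
      ENNReal.ofReal_mul (by positivity), hB]
    ring
  set P : ℕ → E n → ℂ := fun J x => ∑ j ∈ Finset.range J,
    (((2 : ℝ) ^ (-(δ * j)) : ℝ) : ℂ) * Q j x with hP
  have hPm : ∀ J, AEStronglyMeasurable (P J) μ := by
    intro J
    have : Measurable (P J) := by
      rw [hP]
      exact Finset.measurable_sum _ fun j _ => measurable_const.mul (hTm j)
    exact this.aestronglyMeasurable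
  have hPlim : ∀ x, Tendsto (fun J => P J x) atTop (𝓝 (Sn δ f μ₁ x)) := fun x =>
    (hsum μ₁ hFb f hf x).tendsto_sum_nat
  have hlim := Lp.eLpNorm_lim_le_liminf_eLpNorm (p := ENNReal.ofReal p) hPm _
    (Filter.Eventually.of_forall hPlim)
  have hfin : eLpNorm (fun x => Sn δ f μ₁ x) (ENNReal.ofReal p) μ ≤
      B * ENNReal.ofReal S := by
    refine hlim.trans ?_
    refine liminf_le_of_le (by isBoundedDefault) ?_
    intro b hb'
    obtain ⟨J', hJ'⟩ := hb'.exists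
    refine hJ'.trans ?_
    calc eLpNorm (P J') (ENNReal.ofReal p) μ
        ≤ ∑ j ∈ Finset.range J', eLpNorm (fun x => (((2 : ℝ) ^ (-(δ * j)) : ℝ) : ℂ) *
            Q j x) (ENNReal.ofReal p) μ := by
          have h := eLpNorm_sum_le (μ := μ) (p := ENNReal.ofReal p)
            (f := fun (j : ℕ) (x : E n) => (((2 : ℝ) ^ (-(δ * j)) : ℝ) : ℂ) *
            Q j x) (s := Finset.range J')
            (fun j _ => (measurable_const.mul (hTm j)).aestronglyMeasurable) hp1'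
          have e2 : (∑ j ∈ Finset.range J', fun (x : E n) => (((2 : ℝ) ^ (-(δ * j)) : ℝ) : ℂ) *
            Q j x) = P J' := by
            funext x; rw [Finset.sum_apply]
          rw [e2] at h
          exact h
      _ ≤ ∑ j ∈ Finset.range J', B * ENNReal.ofReal ((2 : ℝ) ^ (-((δ - σ) * j))) := by
          refine Finset.sum_le_sum fun j _ => ?_
          have h := eLpNorm_const_smul (((2 : ℝ) ^ (-(δ * j)) : ℝ) : ℂ)
            (Q j) (ENNReal.ofReal p) μ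
          have e3 : ‖(((2 : ℝ) ^ (-(δ * j)) : ℝ) : ℂ)‖ₑ = ENNReal.ofReal ((2 : ℝ) ^ (-(δ * j))) := by
            rw [← ofReal_norm, Complex.norm_real, Real.norm_of_nonneg (h2n j)]
          rw [e3] at h
          refine (le_of_eq h).trans ((mul_le_mul' le_rfl (hab j)).trans (le_of_eq ?_))
          rw [← mul_assoc, ← ENNReal.ofReal_mul (h2n j), mul_comm B]
          congr 2
          rw [← Real.rpow_add (by norm_num)]; congr 1; ring
      _ = B * ∑ j ∈ Finset.range J', ENNReal.ofReal ((2 : ℝ) ^ (-((δ - σ) * j))) := by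
          rw [Finset.mul_sum]
      _ ≤ B * ENNReal.ofReal S := by
          gcongr
          rw [hS, ENNReal.ofReal_tsum_of_nonneg (fun j => Real.rpow_nonneg (by norm_num) _) hgeo]
          exact ENNReal.sum_le_tsum _
  rw [hN] at hfin
  have h5 := ENNReal.rpow_le_rpow hfin hp0.le
  rw [← ENNReal.rpow_mul, one_div, inv_mul_cancel₀ hp0.ne', ENNReal.rpow_one] at h5
  refine h5.trans (le_of_eq ?_)
  rw [hB, ENNReal.mul_rpow_of_nonneg _ _ hp0.le, ENNReal.mul_rpow_of_nonneg _ _ hp0.le,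
    ← ENNReal.rpow_mul, one_div, inv_mul_cancel₀ hp0.ne', ENNReal.rpow_one,
    ENNReal.ofReal_rpow_of_nonneg (by positivity) hp0.le, ENNReal.ofReal_rpow_of_nonneg hS0.le hp0.le,
    ← Real.rpow_mul hC.le, inv_mul_cancel₀ hp0.ne', Real.rpow_one, ENNReal.ofReal_mul hC.le]
  ring

end Pool.Agent.Y248.FE
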