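import Mathlib
import Pool.Agent.Y248.FE.Asm
import Pool.Agent.Y248.FD.Up
set_option autoImplicit false

/-! # Project FE: exponents larger than `2n/(n-1)` -/

namespace Pool.Agent.Y248.FE

open MeasureTheory Set Metric Complex Filter
open scoped ENNReal RealInnerProductSpace Topology FourierTransform
open Pool.Agent.H789R2.FR (E sg T)
open Pool.Agent.H438R2.RZ (Bump)
open Pool.Agent.Y248.BA (mu Kr Tp mu_cont mu_far mu_int mu_L2 Kr_dec)
open Pool.Agent.Y248.FB Pool.Agent.Y248.FC Pool.Agent.Y248.FD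
open Pool.Agent.Y93.FD (shell)

/-- the supremum bound -/
theorem Tm_sup {n : ℕ} {q : E n → ℂ} (hq : Continuous q) (hq2 : ∀ ξ, 2 < ‖ξ‖ → q ξ = 0)
    {f : E n → ℂ} {μ : Measure (E n)} [SFinite μ] (hf : Integrable f μ) (x : E n) :
    ‖Tm q f μ x‖ₑ ≤ (∫⁻ ξ : E n, ‖q ξ‖ₑ ^ (2 : ℝ)) ^ (1 / 2 : ℝ) *
      (∫⁻ ξ in {ξ | q ξ ≠ 0}, ‖Fm f μ ξ‖ₑ ^ (2 : ℝ)) ^ (1 / 2 : ℝ) := by
  rw [Tm_eq hq hq2 hf]
  refine (enorm_integral_le_lintegral_enorm _).trans ?_
  have hS : MeasurableSet {ξ : E n | q ξ ≠ 0} := (hq.measurable (measurableSet_singleton 0)).compl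
  have h1 := ENNReal.lintegral_mul_le_Lp_mul_Lq (volume : Measure (E n))
    (p := 2) (q := 2) (by constructor <;> norm_num)
    (f := fun ξ => ‖q ξ‖ₑ) (g := ({ξ : E n | q ξ ≠ 0}).indicator fun ξ => ‖Fm f μ ξ‖ₑ)
    hq.measurable.enorm.aemeasurable
    ((Fm_cont hf).measurable.enorm.indicator hS).aemeasurable
  have h3 : ∫⁻ ξ, (({ξ : E n | q ξ ≠ 0}).indicator (fun ξ => ‖Fm f μ ξ‖ₑ) ξ) ^ (2 : ℝ) =
      ∫⁻ ξ in {ξ | q ξ ≠ 0}, ‖Fm f μ ξ‖ₑ ^ (2 : ℝ) := by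
    rw [← lintegral_indicator hS]
    refine lintegral_congr fun ξ => ?_
    by_cases h : ξ ∈ {ξ : E n | q ξ ≠ 0}
    · rw [indicator_of_mem h, indicator_of_mem h]
    · rw [indicator_of_notMem h, indicator_of_notMem h, ENNReal.zero_rpow_of_pos (by norm_num)]
  rw [h3] at h1
  refine le_trans (le_of_eq ?_) h1
  refine lintegral_congr fun ξ => ?_
  rw [Pi.mul_apply, enorm_mul, enorm_mul, ← ofReal_norm (cexp _),
    Complex.norm_exp_ofReal_mul_I, ENNReal.ofReal_one, one_mul]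
  by_cases h : ξ ∈ {ξ : E n | q ξ ≠ 0}
  · rw [indicator_of_mem h]
  · rw [indicator_of_notMem h]
    simp only [mem_ofPred_eq, not_not] at h
    rw [h]
    simp

/-- from `2n/(n-1)` to larger exponents -/
theorem up2 (n : ℕ) (hn : 2 ≤ n) (hG0 : S_G0 n) (hGM : S_GM n) (hCM : S_CM n)
    (X : Measure (E n) → Measure (E n) → Prop) (D : ℝ) (hD : 0 < D)
    (hX : ∀ μ₁ μ₂, X μ₁ μ₂ → DimC n D μ₁ ∧ DimC n D μ₂) (τ : ℝ) (hτ : 0 ≤ τ)
    (hP : P2 n X (2 * (n : ℝ) / ((n : ℝ) - 1)) τ) (p σ : ℝ)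
    (hp : 2 * (n : ℝ) / ((n : ℝ) - 1) < p)
    (hσ : τ + ((n : ℝ) * (1 / 2 - 1 / p) - 1 / 2) < σ) : P2 n X p σ := by
  have hn2 : (2 : ℝ) ≤ n := by exact_mod_cast hn
  have hn1 : 0 < (n : ℝ) - 1 := by linarith
  have hn0 : (0 : ℝ) < n := by linarith
  set q : ℝ := 2 * (n : ℝ) / ((n : ℝ) - 1) with hqd
  have hq2 : 2 ≤ q := by rw [hqd, le_div_iff₀ hn1]; linarith
  have hp0 : 0 < p := by linarith
  have hq0 : 0 < q := by linarith
  set s₀ : ℝ := (n : ℝ) * (1 / 2 - 1 / p) - 1 / 2 with hs₀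
  set η : ℝ := (σ - τ - s₀) / 2 with hη
  have hη0 : 0 < η := by rw [hη]; linarith
  set ε : ℝ := η / n with hε
  have hε0 : 0 < ε := by positivity
  refine p2_of_large n hCM X D p σ hD (by linarith) hX fun ψ hψ => ?_
  obtain ⟨C₁, hC₁, h1⟩ := hP ψ hψ
  obtain ⟨C₂, hC₂, h2⟩ := mu_L2 n hn hψ
  obtain ⟨K, hK, hG⟩ := hG0 D hD
  have hpq0 : 0 ≤ p - q := by linarith
  have h2p : 0 ≤ 1 - 2 / p := by rw [sub_nonneg, div_le_one hp0]; linarith
  have hqp : 0 ≤ 1 - q / p := by rw [sub_nonneg, div_le_one hp0]; linarith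
  obtain ⟨N, hN⟩ := gm_pow n hGM p ε σ D (C₂ ^ ((p - q) / 2) * K ^ ((p - q) / 2) *
    (D * 2 ^ n) ^ ((p - q) / 2) * C₁) (by linarith) hε0 hD (by positivity)
  obtain ⟨C₀, hC₀, hdec⟩ := Kr_dec n hψ N
  obtain ⟨C, hC, hb⟩ := hN C₀ hC₀
  refine ⟨C, hC, fun μ₁ μ₂ hμ A hA64 f hf => ?_⟩
  obtain ⟨hd1, hd2⟩ := hX _ _ hμ
  have hA0 : 0 < A := by linarith
  have hA : 1 ≤ A := by linarith
  refine hb μ₁ μ₂ hd1 hd2 A hA (normSeminorm ℝ (E n)) continuous_norm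
    (fun x => by
      rw [coe_normSeminorm]
      have := norm_nonneg x
      linarith) (mu ψ A 1)
    (mu_int hψ hA0 one_pos (by norm_num)) (fun x => ?_) ?_ f hf
  · rw [coe_normSeminorm]
    exact hdec A 1 hA le_rfl (by norm_num) x
  clear hf f
  intro u f hf hfs'
  set ρ : ℝ := A ^ (1 + ε) with hρ
  have hρ0 : 0 < ρ := by positivity
  have hρ1 : 1 ≤ ρ := Real.one_le_rpow hA (by linarith)
  have hfs : ∀ x, x ∉ closedBall u (2 * ρ) → f x = 0 := by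
    intro x hx
    refine hfs' x ?_
    rw [coe_normSeminorm]
    rw [mem_closedBall, dist_eq_norm, not_le] at hx
    exact hx
  have hFb := fb_dimC hd1
  have hlf : IsLocallyFiniteMeasure μ₁ :=
    ⟨fun x => ⟨closedBall x 1, closedBall_mem_nhds x one_pos, hFb x 1⟩⟩
  have hfi := bb_int hf hFb
  have hfm := hf.1
  set Y : ℝ≥0∞ := ∫⁻ x, ‖f x‖ₑ ^ p ∂μ₁ with hY
  have hB : MeasurableSet (closedBall u (2 * ρ)) := isClosed_closedBall.measurableSet
  have hWB : μ₁ (closedBall u (2 * ρ)) ≤ ENNReal.ofReal (D * (2 * ρ) ^ n) := by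
    refine (hd1 u (2 * ρ) (by linarith)).trans (le_of_eq ?_)
    rw [Real.rpow_natCast]
  have l2 : ∫⁻ x, ‖f x‖ₑ ^ (2 : ℝ) ∂μ₁ ≤
      ENNReal.ofReal ((D * (2 * ρ) ^ n) ^ (1 - 2 / p)) * Y ^ (2 / p) := by
    refine (hol hfm hB hfs 2 p two_pos (by linarith)).trans ?_
    rw [← ENNReal.ofReal_rpow_of_nonneg (by positivity) h2p]
    exact mul_le_mul' (ENNReal.rpow_le_rpow hWB h2p) le_rfl
  have lq : ∫⁻ x, ‖f x‖ₑ ^ q ∂μ₁ ≤
      ENNReal.ofReal ((D * (2 * ρ) ^ n) ^ (1 - q / p)) * Y ^ (q / p) := by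
    refine (hol hfm hB hfs q p hq0 hp.le).trans ?_
    rw [← ENNReal.ofReal_rpow_of_nonneg (by positivity) hqp]
    exact mul_le_mul' (ENNReal.rpow_le_rpow hWB hqp) le_rfl
  have hmuf : ∫⁻ ξ : E n, ‖mu ψ A 1 ξ‖ₑ ^ (2 : ℝ) ≤ ENNReal.ofReal (C₂ / A) :=
    h2 A 1 hA le_rfl (by norm_num)
  have hgain : ∫⁻ ξ in {ξ | mu ψ A 1 ξ ≠ 0}, ‖Fm f μ₁ ξ‖ₑ ^ (2 : ℝ) ≤
      ENNReal.ofReal K * ∫⁻ x, ‖f x‖ₑ ^ (2 : ℝ) ∂μ₁ := by
    refine (lintegral_mono_set (fun ξ hξ => shell hψ (by linarith) ξ hξ)).trans ?_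
    refine (hG μ₁ hd1 (A / 2) (by linarith) f hf).trans (le_of_eq ?_)
    rw [neg_zero, Real.rpow_zero, mul_one]
  have hsup := Tm_sup (mu_cont hψ A 1) (fun ξ hξ => mu_far hψ hA0 one_pos ξ (by linarith))
    (f := f) (μ := μ₁) hfi
  set S : ℝ≥0∞ := ENNReal.ofReal (C₂ / A) ^ (1 / 2 : ℝ) *
      (ENNReal.ofReal K * (ENNReal.ofReal ((D * (2 * ρ) ^ n) ^ (1 - 2 / p)) *
        Y ^ (2 / p))) ^ (1 / 2 : ℝ) with hS
  have hsup' : ∀ x, ‖Tm (mu ψ A 1) f μ₁ x‖ₑ ≤ S := fun x =>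
    (hsup x).trans (mul_le_mul' (ENNReal.rpow_le_rpow hmuf (by norm_num))
      (ENNReal.rpow_le_rpow (hgain.trans (mul_le_mul' le_rfl l2)) (by norm_num)))
  have hS2 : S ^ (p - q) = ENNReal.ofReal ((C₂ / A) ^ ((p - q) / 2) * (K ^ ((p - q) / 2) *
      (D * (2 * ρ) ^ n) ^ ((1 - 2 / p) * ((p - q) / 2)))) * Y ^ ((p - q) / p) := by
    rw [hS, ENNReal.mul_rpow_of_nonneg _ _ hpq0, ← ENNReal.rpow_mul, ← ENNReal.rpow_mul,
      show (1 / 2 : ℝ) * (p - q) = (p - q) / 2 by ring,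
      ENNReal.mul_rpow_of_nonneg _ _ (by positivity), ENNReal.mul_rpow_of_nonneg _ _ (by positivity),
      ← ENNReal.rpow_mul,
      ENNReal.ofReal_rpow_of_nonneg (by positivity) (by positivity),
      ENNReal.ofReal_rpow_of_nonneg (by positivity) (by positivity),
      ENNReal.ofReal_rpow_of_nonneg (by positivity) (by positivity),
      ← Real.rpow_mul (by positivity), ENNReal.ofReal_mul (by positivity),
      ENNReal.ofReal_mul (by positivity), show 2 / p * ((p - q) / 2) = (p - q) / p by field_simp]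
    ring
  have hYt : Y ≠ ∞ := by
    obtain ⟨M, hM⟩ := hf.2.1
    have hM0 : 0 ≤ M := (norm_nonneg _).trans (hM 0)
    have h5 : Y ≤ ∫⁻ x, (closedBall u (2 * ρ)).indicator (fun _ => ENNReal.ofReal M ^ p) x ∂μ₁ := by
      rw [hY]
      refine lintegral_mono fun x => ?_
      by_cases hx : x ∈ closedBall u (2 * ρ)
      · rw [indicator_of_mem hx]
        refine ENNReal.rpow_le_rpow ?_ hp0.le
        rw [← ofReal_norm]
        exact ENNReal.ofReal_le_ofReal (hM x)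
      · rw [indicator_of_notMem hx, hfs x hx, enorm_zero, ENNReal.zero_rpow_of_pos hp0]
    refine (h5.trans_lt ?_).ne
    rw [lintegral_indicator_const hB]
    exact ENNReal.mul_lt_top (ENNReal.rpow_lt_top_of_nonneg hp0.le ENNReal.ofReal_ne_top)
      (hFb u _)
  have hSt : S ^ (p - q) ≠ ∞ := by
    rw [hS2]
    exact ENNReal.mul_ne_top ENNReal.ofReal_ne_top
      (ENNReal.rpow_ne_top_of_nonneg (by positivity) hYt)
  calc ∫⁻ x, ‖Tm (mu ψ A 1) f μ₁ x‖ₑ ^ p ∂μ₂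
      ≤ ∫⁻ x, S ^ (p - q) * ‖Tm (mu ψ A 1) f μ₁ x‖ₑ ^ q ∂μ₂ := by
        refine lintegral_mono fun x => ?_
        calc ‖Tm (mu ψ A 1) f μ₁ x‖ₑ ^ p =
              ‖Tm (mu ψ A 1) f μ₁ x‖ₑ ^ (p - q) * ‖Tm (mu ψ A 1) f μ₁ x‖ₑ ^ q := by
              rw [← ENNReal.rpow_add_of_nonneg _ _ hpq0 hq0.le]; congr 1; ring
          _ ≤ _ := mul_le_mul' (ENNReal.rpow_le_rpow (hsup' x) hpq0) le_rfl
    _ = S ^ (p - q) * ∫⁻ x, ‖Tm (mu ψ A 1) f μ₁ x‖ₑ ^ q ∂μ₂ :=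
        lintegral_const_mul' _ _ hSt
    _ ≤ (ENNReal.ofReal ((C₂ / A) ^ ((p - q) / 2) * (K ^ ((p - q) / 2) *
      (D * (2 * ρ) ^ n) ^ ((1 - 2 / p) * ((p - q) / 2)))) * Y ^ ((p - q) / p)) *
        (ENNReal.ofReal (C₁ * A ^ (q * τ)) *
        (ENNReal.ofReal ((D * (2 * ρ) ^ n) ^ (1 - q / p)) * Y ^ (q / p))) := by
        rw [hS2]
        refine mul_le_mul' le_rfl ((h1 μ₁ μ₂ hμ A hA f hf).trans ?_)
        exact mul_le_mul' le_rfl lq
    _ = ENNReal.ofReal (((C₂ / A) ^ ((p - q) / 2) * (K ^ ((p - q) / 2) *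
      (D * (2 * ρ) ^ n) ^ ((1 - 2 / p) * ((p - q) / 2)))) * (C₁ * A ^ (q * τ)) *
        (D * (2 * ρ) ^ n) ^ (1 - q / p)) * (Y ^ ((p - q) / p) * Y ^ (q / p)) :=
        mul3 (by positivity) (by positivity) (by positivity) _ _
    _ = ENNReal.ofReal (((C₂ / A) ^ ((p - q) / 2) * (K ^ ((p - q) / 2) *
      (D * (2 * ρ) ^ n) ^ ((1 - 2 / p) * ((p - q) / 2)))) * (C₁ * A ^ (q * τ)) *
        (D * (2 * ρ) ^ n) ^ (1 - q / p)) * Y := by
        rw [← ENNReal.rpow_add_of_nonneg _ _ (by positivity) (by positivity)]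
        have : (p - q) / p + q / p = 1 := by field_simp; ring
        rw [this, ENNReal.rpow_one]
    _ ≤ _ := by
        refine mul_le_mul' (ENNReal.ofReal_le_ofReal ?_) le_rfl
        have e1 : (D * (2 * ρ) ^ n) ^ ((1 - 2 / p) * ((p - q) / 2)) *
            (D * (2 * ρ) ^ n) ^ (1 - q / p) = (D * 2 ^ n) ^ ((p - q) / 2) *
            A ^ ((1 + ε) * n * ((p - q) / 2)) := by
          rw [← Real.rpow_add (by positivity)]
          have e2 : (1 - 2 / p) * ((p - q) / 2) + (1 - q / p) = (p - q) / 2 := by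
            field_simp; ring
          have e3 : D * (2 * ρ) ^ n = (D * 2 ^ n) * A ^ ((1 + ε) * n) := by
            rw [mul_pow, hρ, ← Real.rpow_natCast (A ^ (1 + ε)) n, ← Real.rpow_mul hA0.le]
            ring
          rw [e2, e3, Real.mul_rpow (by positivity) (by positivity), ← Real.rpow_mul hA0.le]
        have e4 : (C₂ / A) ^ ((p - q) / 2) = C₂ ^ ((p - q) / 2) * A ^ (-((p - q) / 2)) := by
          rw [Real.div_rpow hC₂.le hA0.le, Real.rpow_neg hA0.le]; rfl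
        calc ((C₂ / A) ^ ((p - q) / 2) * (K ^ ((p - q) / 2) *
              (D * (2 * ρ) ^ n) ^ ((1 - 2 / p) * ((p - q) / 2)))) *
              (C₁ * A ^ (q * τ)) * (D * (2 * ρ) ^ n) ^ (1 - q / p)
            = (C₂ / A) ^ ((p - q) / 2) * K ^ ((p - q) / 2) * C₁ * A ^ (q * τ) *
              ((D * (2 * ρ) ^ n) ^ ((1 - 2 / p) * ((p - q) / 2)) *
                (D * (2 * ρ) ^ n) ^ (1 - q / p)) := by ring
          _ = (C₂ ^ ((p - q) / 2) * K ^ ((p - q) / 2) * (D * 2 ^ n) ^ ((p - q) / 2) * C₁) *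
              (A ^ (-((p - q) / 2)) * A ^ (q * τ) * A ^ ((1 + ε) * n * ((p - q) / 2))) := by
              rw [e1, e4]; ring
          _ ≤ _ := by
              refine mul_le_mul_of_nonneg_left ?_ (by positivity)
              rw [← Real.rpow_add hA0, ← Real.rpow_add hA0]
              refine Real.rpow_le_rpow_of_exponent_le hA ?_
              have f1 : (n - 1) * q = 2 * (n : ℝ) := by
                rw [hqd]; field_simp
              have f2 : p * s₀ = (p * (n - 1) - 2 * (n : ℝ)) / 2 := by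
                rw [hs₀]; field_simp; ring
              have f3 : -((p - q) / 2) + q * τ + (1 + ε) * n * ((p - q) / 2) =
                  p * s₀ + q * τ + (ε * n) * ((p - q) / 2) := by
                rw [f2, ← f1]; ring
              have f4 : ε * n = η := by rw [hε]; field_simp
              have f5 : p * σ = p * s₀ + p * τ + 2 * (p * η) := by rw [hη]; ring
              rw [f3, f4, f5]
              have f6 : q * τ ≤ p * τ := mul_le_mul_of_nonneg_right hp.le hτ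
              have f7 : η * ((p - q) / 2) ≤ η * p := by
                refine mul_le_mul_of_nonneg_left ?_ hη0.le
                linarith
              have f8 : 0 ≤ p * η := by positivity
              linarith

end Pool.Agent.Y248.FE
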