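import Mathlib
import Pool.Agent.Y248.FE.Big
import Pool.Agent.Y248.FE.Up
import Pool.Agent.Y248.FE.Sn
import Pool.Agent.Y737.FE.Dd
import Pool.Agent.Y356.FE.Rx
set_option autoImplicit false

/-! # Project FE: the theorem for two measures -/

namespace Pool.Agent.Y248.FE

open MeasureTheory Set Metric Complex Filter
open scoped ENNReal RealInnerProductSpace Topology FourierTransform
open Pool.Agent.H789R2.FR (E sg T)
open Pool.Agent.H438R2.RZ (Bump)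
open Pool.Agent.Y248.BA (mu Kr Tp)
open Pool.Agent.Y248.FB Pool.Agent.Y248.FC Pool.Agent.Y248.FD

theorem P2.mono {n : ℕ} {X : Measure (E n) → Measure (E n) → Prop} {p σ τ : ℝ} (h : P2 n X p σ)
    (hp : 0 ≤ p) (hστ : σ ≤ τ) : P2 n X p τ := by
  intro ψ hψ
  obtain ⟨C, hC, hb⟩ := h ψ hψ
  refine ⟨C, hC, fun μ₁ μ₂ hμ A hA f hf => (hb μ₁ μ₂ hμ A hA f hf).trans ?_⟩
  refine mul_le_mul' (ENNReal.ofReal_le_ofReal ?_) le_rfl
  refine mul_le_mul_of_nonneg_left ?_ hC.le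
  exact Real.rpow_le_rpow_of_exponent_le hA (mul_le_mul_of_nonneg_left hστ hp)

/-- the excess of the dimension `d` -/
noncomputable def exc (k : ℕ) (d : ℝ) : ℝ := max 0 (d - ((k : ℝ) + 1) / 2)

theorem dge (k : ℕ) (d : ℝ) : d = ((k : ℝ) + 1) / 2 - gam k d + exc k d := by
  unfold gam exc
  rcases le_total d (((k : ℝ) + 1) / 2) with h | h
  · rw [max_eq_right (by linarith), max_eq_left (by linarith)]
    ring
  · rw [max_eq_left (by linarith), max_eq_right (by linarith)]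
    ring

/-- the admissible dimensions -/
def Rng (k : ℕ) (d : ℝ) : Prop := d ≤ k ∧ if k = 1 then 0 ≤ d else (k : ℝ) / 2 ≤ d

/-- the condition for the input dimension `a` and the output dimension `b` -/
def Cnd (m k : ℕ) (a b δ s : ℝ) : Prop :=
  ((m : ℝ) / 2 + exc k a) * s < δ + (gam k a * (1 / 2 + s) + gam k b * (1 / 2 - s)) ∧
  (k = 1 → ((m : ℝ) - 1) * s < 2 * δ + (gam k a * (1 / 2 + s) + gam k b * (1 / 2 - s)))

theorem Rng.nonneg {k : ℕ} {d : ℝ} (h : Rng k d) : 0 ≤ d := by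
  obtain ⟨-, h⟩ := h
  split_ifs at h with hk
  · exact h
  · exact le_trans (by positivity) h

theorem Xp_dim (m k : ℕ) (d₁ d₂ K₀ : ℝ) (h1 : Rng k d₁) (h2 : Rng k d₂) (hK : 0 < K₀) :
    ∃ D : ℝ, 0 < D ∧ ∀ μ₁ μ₂ : Measure (E (m + k)), Xp m k d₁ d₂ K₀ μ₁ μ₂ →
      DimC ((m + k : ℕ) : ℝ) D μ₁ ∧ DimC ((m + k : ℕ) : ℝ) D μ₂ := by
  obtain ⟨D₁, hD₁, hDim₁⟩ := cyl_dimk m k d₁ K₀ h1.nonneg h1.1 hK
  obtain ⟨D₂, hD₂, hDim₂⟩ := cyl_dimk m k d₂ K₀ h2.nonneg h2.1 hK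
  refine ⟨D₁ + D₂, by positivity, ?_⟩
  rintro μ₁ μ₂ ⟨ν₁, ν₂, hν₁, hν₂, rfl, rfl⟩
  have e1 := h1.1
  have e2 := h2.1
  exact ⟨DimC.mono (hDim₁ ν₁ hν₁) (by push_cast; linarith) hD₁.le (by linarith),
    DimC.mono (hDim₂ ν₂ hν₂) (by push_cast; linarith) hD₂.le (by linarith)⟩

/-- the critical range, `p ≥ 2` -/
theorem crit2 (m k : ℕ) (hk : 1 ≤ k) (hn : 3 ≤ m + k) (d₁ d₂ K₀ p δ : ℝ) (hr1 : Rng k d₁)
    (hr2 : Rng k d₂) (hK : 0 < K₀) (hp : 2 ≤ p)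
    (hpc : 2 * ((m + k : ℕ) : ℝ) * (1 / 2 - 1 / p) ≤ 1)
    (hs : ((m + k : ℕ) : ℝ) * (1 / 2 - 1 / p) < 1 / 2 + δ)
    (hc : Cnd m k d₁ d₂ δ (1 / 2 - 1 / p)) :
    ∃ σ : ℝ, σ < δ ∧ P2 (m + k) (Xp m k d₁ d₂ K₀) p σ := by
  have hs0 : 0 ≤ 1 / 2 - 1 / p := by
    rw [sub_nonneg, one_div_le_one_div (by linarith) two_pos]; exact hp
  rcases Nat.eq_or_lt_of_le hk with h1 | h1
  · obtain rfl : k = 1 := h1.symm
    have hm2 : 2 ≤ m := by omega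
    obtain ⟨r11, r12⟩ := hr1
    obtain ⟨r21, r22⟩ := hr2
    rw [if_pos rfl] at r12 r22
    push_cast at r11 r21 hs hpc
    have hg : ∀ d : ℝ, d ≤ 1 → gam 1 d = 1 - d ∧ exc 1 d = 0 := by
      intro d hd
      unfold gam exc
      push_cast
      refine ⟨?_, max_eq_left (by linarith)⟩
      rw [max_eq_right (by linarith)]
      ring
    obtain ⟨c1, c2⟩ := hc
    have c2 := c2 rfl
    rw [(hg d₁ r11).1, (hg d₂ r21).1] at c1 c2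
    rw [(hg d₁ r11).2] at c1
    set s : ℝ := 1 / 2 - 1 / p with hsd
    have hkk := Pool.Agent.Y210.FB.t_kk (m + 1) (by omega)
      (Pool.Agent.Y407.FB.t_rad (m + 1) (by omega))
    have hGA := Pool.Agent.Y884.FD.t_ga m
    have hDC := Pool.Agent.Y448.FD.t_dc m
    have hKL := Pool.Agent.Y574.FD.t_kl m hm2 (Pool.Agent.Y407.FB.t_rad m hm2) hkk
    have hKH := Pool.Agent.Y574.FD.t_kh m hm2 hkk
    have hSPL := Pool.Agent.Y261.FD.t_spl m hm2 hKL hGA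
    have hSPH := Pool.Agent.Y949.FD.t_sph m hm2 hkk hKH hGA
    have hBS := Pool.Agent.Y488.FD.t_bs m hm2 hGA
    have hRX := Pool.Agent.Y356.FE.t_rx m hm2 hBS hSPL hSPH
    set M₀ : ℝ := max (max ((m : ℝ) * s - ((1 - d₁) * (1 + 2 * s) + (1 - d₂) * (1 - 2 * s)))
      (((m : ℝ) - 1) * s - ((1 - d₁) * (1 / 2 + s) + (1 - d₂) * (1 / 2 - s))))
      (2 * s * ((m : ℝ) + 1) - 1) with hM₀
    have hM : M₀ < 2 * δ := by
      rw [hM₀]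
      refine max_lt (max_lt ?_ ?_) ?_
      · linarith
      · linarith
      · linarith
    obtain ⟨σ, hσ1, hσ2⟩ := exists_between (show M₀ / 2 < δ by linarith)
    refine ⟨σ, hσ2, p2_one m (Pool.Agent.Y48.FE.t_cm (m + 1)) (Pool.Agent.Y48.FE.t_gm (m + 1))
      hDC hGA (Pool.Agent.Y275.FD.t_ls (m + 1)) hBS hRX d₁ d₂ K₀ p M₀ σ r12 r11 r22 r21 hK hp
      hpc ?_ ?_ ?_ (by linarith)⟩
    · exact (le_max_left _ _).trans (le_max_left _ _)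
    · exact (le_max_right _ _).trans (le_max_left _ _)
    · exact le_max_right _ _
  · have hk1 : k ≠ 1 := by omega
    obtain ⟨r11, r12⟩ := hr1
    obtain ⟨r21, r22⟩ := hr2
    rw [if_neg hk1] at r12 r22
    obtain ⟨c1, -⟩ := hc
    set s : ℝ := 1 / 2 - 1 / p with hsd
    have g10 : 0 ≤ gam k d₁ := le_max_left _ _
    have e1 : ((m : ℝ) + d₁) * s - gam k d₁ / 2 - 1 / 2 < δ := by
      have : ((m : ℝ) + d₁) * s ≤ ((m + k : ℕ) : ℝ) * s := by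
        refine mul_le_mul_of_nonneg_right ?_ hs0
        push_cast
        linarith
      linarith
    have e2 : ((m : ℝ) + d₁) * s - gam k d₁ / 2 - (gam k d₂ +
        (((m + k : ℕ) : ℝ) + 1 - 2 * gam k d₂) * s) / 2 < δ := by
      have hd := dge k d₁
      have : ((m : ℝ) + d₁) * s - gam k d₁ / 2 - (gam k d₂ +
        (((m + k : ℕ) : ℝ) + 1 - 2 * gam k d₂) * s) / 2 = ((m : ℝ) / 2 + exc k d₁) * s -
          (gam k d₁ * (1 / 2 + s) + gam k d₂ * (1 / 2 - s)) := by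
        push_cast
        linear_combination s * hd
      rw [this]
      linarith
    obtain ⟨σ, hσ1, hσ2⟩ := exists_between (max_lt e1 e2)
    exact ⟨σ, hσ2, p2_ge2 m k h1 d₁ d₂ K₀ p σ r12 r11 r22 r21 hK hp
      ((le_max_left _ _).trans_lt hσ1) ((le_max_right _ _).trans_lt hσ1)⟩

/-- all exponents `p ≥ 2` -/
theorem full2 (m k : ℕ) (hk : 1 ≤ k) (hn : 3 ≤ m + k) (d₁ d₂ K₀ p δ : ℝ) (hr1 : Rng k d₁)
    (hr2 : Rng k d₂) (hK : 0 < K₀) (hp : 2 ≤ p)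
    (hs : ((m + k : ℕ) : ℝ) * (1 / 2 - 1 / p) < 1 / 2 + δ)
    (hc : Cnd m k d₁ d₂ (δ - max 0 (((m + k : ℕ) : ℝ) * (1 / 2 - 1 / p) - 1 / 2))
      (min (1 / 2 - 1 / p) (1 / (2 * ((m + k : ℕ) : ℝ))))) :
    ∃ σ : ℝ, σ < δ ∧ P2 (m + k) (Xp m k d₁ d₂ K₀) p σ := by
  have hn3 : (3 : ℝ) ≤ ((m + k : ℕ) : ℝ) := by exact_mod_cast hn
  have hcr := crit2 m k hk hn d₁ d₂ K₀
  have hup := up2 (m + k) (by omega) (Pool.Agent.Y421.FE.t_g0 (m + k))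
    (Pool.Agent.Y48.FE.t_gm (m + k)) (Pool.Agent.Y48.FE.t_cm (m + k)) (Xp m k d₁ d₂ K₀)
  obtain ⟨D, hD, hDim⟩ := Xp_dim m k d₁ d₂ K₀ hr1 hr2 hK
  set n : ℝ := ((m + k : ℕ) : ℝ) with hnd
  have hn1 : 0 < n - 1 := by linarith
  have hp0 : 0 < p := by linarith
  rcases le_or_gt (1 / 2 - 1 / p) (1 / (2 * n)) with h | h
  · have h1 : 2 * n * (1 / 2 - 1 / p) ≤ 1 := by
      rw [le_div_iff₀ (by linarith)] at h
      linarith
    rw [min_eq_left h, max_eq_left (by linarith), sub_zero] at hc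
    exact hcr p δ hr1 hr2 hK hp h1 hs hc
  · have h1 : 1 < 2 * n * (1 / 2 - 1 / p) := by
      rw [div_lt_iff₀ (by linarith)] at h
      linarith
    rw [min_eq_right h.le, max_eq_right (by linarith)] at hc
    set q : ℝ := 2 * n / (n - 1) with hqd
    have hq0 : 0 < q := by positivity
    have hq2 : 2 ≤ q := by rw [hqd, le_div_iff₀ hn1]; linarith
    have hqs : 1 / 2 - 1 / q = 1 / (2 * n) := by
      rw [hqd]; field_simp; ring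
    have hqp : q < p := by
      have e1 : 1 / p < 1 / q := by linarith
      exact (one_div_lt_one_div hp0 hq0).1 e1
    obtain ⟨σ', hσ', hP⟩ := hcr q (δ - (n * (1 / 2 - 1 / p) - 1 / 2)) hr1 hr2 hK hq2
      (by rw [hqs]; field_simp; exact le_rfl) (by
        have e3 : n * (1 / (2 * n)) = 1 / 2 := by field_simp
        rw [hqs, e3]
        linarith)
      (by rw [hqs]; exact hc)
    set τ : ℝ := max 0 σ' with hτ
    have hτ1 : τ < δ - (n * (1 / 2 - 1 / p) - 1 / 2) := max_lt (by linarith) hσ'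
    obtain ⟨σ, hσ1, hσ2⟩ := exists_between (show τ + (n * (1 / 2 - 1 / p) - 1 / 2) < δ by linarith)
    exact ⟨σ, hσ2, hup D hD hDim τ (le_max_left _ _) (hP.mono hq0.le (le_max_right _ _)) p σ hqp
      hσ1⟩

/-- the means, `p ≥ 2` -/
theorem sn_big (m k : ℕ) (hk : 1 ≤ k) (hn : 3 ≤ m + k) (d₁ d₂ K₀ p δ : ℝ) (hr1 : Rng k d₁)
    (hr2 : Rng k d₂) (hK : 0 < K₀) (hp : 2 ≤ p) (hδ : 0 ≤ δ)
    (hs : ((m + k : ℕ) : ℝ) * (1 / 2 - 1 / p) < 1 / 2 + δ)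
    (hc : Cnd m k d₁ d₂ (δ - max 0 (((m + k : ℕ) : ℝ) * (1 / 2 - 1 / p) - 1 / 2))
      (min (1 / 2 - 1 / p) (1 / (2 * ((m + k : ℕ) : ℝ))))) :
    ∃ C : ℝ, 0 < C ∧ ∀ μ₁ μ₂ : Measure (E (m + k)), Xp m k d₁ d₂ K₀ μ₁ μ₂ →
      ∀ f : E (m + k) → ℂ, BB f →
      ∫⁻ x, ‖Sn δ f μ₁ x‖ₑ ^ p ∂μ₂ ≤ ENNReal.ofReal C * ∫⁻ x, ‖f x‖ₑ ^ p ∂μ₁ := by
  obtain ⟨σ, hσ, hP⟩ := full2 m k hk hn d₁ d₂ K₀ p δ hr1 hr2 hK hp hs hc
  obtain ⟨D, hD, hDim⟩ := Xp_dim m k d₁ d₂ K₀ hr1 hr2 hK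
  exact sn_core (Pool.Agent.Y421.FE.t_sx (m + k) (by omega)) _ p δ σ (by linarith) hδ hσ
    (fun μ₁ μ₂ hμ => fb_dimC (hDim μ₁ μ₂ hμ).1) hP

/-- the condition on all parameters, `s = |1/2 - 1/p|` -/
def Cnf (m k : ℕ) (a b δ s : ℝ) : Prop :=
  Cnd m k a b (δ - max 0 (((m + k : ℕ) : ℝ) * s - 1 / 2)) (min s (1 / (2 * ((m + k : ℕ) : ℝ))))

/-- the means, all exponents -/
theorem sn_all (m k : ℕ) (hk : 1 ≤ k) (hn : 3 ≤ m + k) (d₁ d₂ K₀ p δ : ℝ) (hr1 : Rng k d₁)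
    (hr2 : Rng k d₂) (hK : 0 < K₀) (hp : 1 < p) (hδ : 0 ≤ δ)
    (hs : ((m + k : ℕ) : ℝ) * |1 / 2 - 1 / p| < 1 / 2 + δ)
    (hc1 : 2 ≤ p → Cnf m k d₁ d₂ δ |1 / 2 - 1 / p|)
    (hc2 : p < 2 → Cnf m k d₂ d₁ δ |1 / 2 - 1 / p|) :
    ∃ C : ℝ, 0 < C ∧ ∀ μ₁ μ₂ : Measure (E (m + k)), Xp m k d₁ d₂ K₀ μ₁ μ₂ →
      ∀ f : E (m + k) → ℂ, BB f →
      ∫⁻ x, ‖Sn δ f μ₁ x‖ₑ ^ p ∂μ₂ ≤ ENNReal.ofReal C * ∫⁻ x, ‖f x‖ₑ ^ p ∂μ₁ := by
  rcases le_or_gt 2 p with h2 | h2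
  · have hs0 : 0 ≤ 1 / 2 - 1 / p := by
      rw [sub_nonneg, one_div_le_one_div (by linarith) two_pos]; exact h2
    rw [abs_of_nonneg hs0] at hs hc1
    exact sn_big m k hk hn d₁ d₂ K₀ p δ hr1 hr2 hK h2 hδ hs (hc1 h2)
  · have hs0 : 1 / 2 - 1 / p ≤ 0 := by
      rw [sub_nonpos, one_div_le_one_div two_pos (by linarith)]; exact h2.le
    have hp1 : 0 < p - 1 := by linarith
    set q : ℝ := p / (p - 1) with hq
    have hq2 : 2 ≤ q := by rw [hq, le_div_iff₀ hp1]; linarith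
    have hqi : 1 / q = 1 - 1 / p := by
      rw [hq]; field_simp
    have hinv : 1 / p + 1 / q = 1 := by linarith
    have hss : |1 / 2 - 1 / p| = 1 / 2 - 1 / q := by
      rw [abs_of_nonpos hs0, hqi]; ring
    have hc := hc2 h2
    rw [hss] at hs hc
    obtain ⟨C, hC, hb⟩ := sn_big m k hk hn d₂ d₁ K₀ q δ hr2 hr1 hK hq2 hδ hs hc
    obtain ⟨D, hD, hDim⟩ := Xp_dim m k d₁ d₂ K₀ hr1 hr2 hK
    refine ⟨C ^ (p / q), Real.rpow_pos_of_pos hC _, fun μ₁ μ₂ hμ f hf => ?_⟩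
    have h1 := hDim μ₁ μ₂ hμ
    refine Pool.Agent.Y737.FE.t_dd (m + k) δ p q C hδ hp hinv hC μ₁ μ₂ (fb_dimC h1.1)
      (fb_dimC h1.2) (fun g hg => ?_) f hf
    obtain ⟨ν₁, ν₂, hν₁, hν₂, e1, e2⟩ := hμ
    exact hb μ₂ μ₁ ⟨ν₂, ν₁, hν₂, hν₁, e2, e1⟩ g hg

end Pool.Agent.Y248.FE
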